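import Mathlib

/-!
Partitions of the triples of a set of binary sequences which come from the stepping-up method:
a dichotomy for the tree of binary sequences of countable length.
-/

open Cardinal Set Function

namespace Pool.Agent.Lib.MP_dc3585_lc.StepUp

universe u

section Nodes

variable {I : Type u} [LinearOrder I]

/-- `k` is the first place where the two sequences differ. -/
def FD (x y : I → Bool) (k : I) : Prop := x k ≠ y k ∧ ∀ j < k, x j = y j

theorem FD.symm {x y : I → Bool} {k : I} (h : FD x y k) : FD y x k :=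
  ⟨h.1.symm, fun j hj => (h.2 j hj).symm⟩

theorem FD.unique {x y : I → Bool} {k l : I} (hk : FD x y k) (hl : FD x y l) : k = l := by
  rcases lt_trichotomy k l with h | h | h
  · exact absurd (hl.2 k h) hk.1
  · exact h
  · exact absurd (hk.2 l h) hl.1

theorem exists_FD [WellFoundedLT I] {x y : I → Bool} (h : x ≠ y) : ∃ k, FD x y k := by
  have hne : {k | x k ≠ y k}.Nonempty := Function.ne_iff.mp h
  obtain ⟨k, hk, hmin⟩ := WellFounded.has_min (wellFounded_lt (α := I)) _ hne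
  refine ⟨k, hk, ?_⟩
  intro j hj
  by_contra hcon
  exact hmin j hcon hj

/-- A node of the tree: a level and a sequence, of which only the part below the level matters. -/
abbrev Node (I : Type u) := I × (I → Bool)

/-- The node `q` extends the node `p`. -/
def Ext (p q : Node I) : Prop := p.1 ≤ q.1 ∧ ∀ j < p.1, q.2 j = p.2 j

theorem Ext.refl (p : Node I) : Ext p p := ⟨le_rfl, fun _ _ => rfl⟩

theorem Ext.trans {p q r : Node I} (h : Ext p q) (h' : Ext q r) : Ext p r :=
  ⟨h.1.trans h'.1, fun j hj => (h'.2 j (hj.trans_le h.1)).trans (h.2 j hj)⟩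

/-- The set `Y` of nodes is dense above the node `p`. -/
def DenseAbove (J : Set I) (Y : Set (Node I)) (p : Node I) : Prop :=
  ∀ q : Node I, q.1 ∈ J → Ext p q → ∃ s ∈ Y, s.1 ∈ J ∧ Ext q s

theorem long_chain (J : Set I) (hJ : ∀ C ⊆ J, C.Countable → ∃ b ∈ J, ∀ c ∈ C, c < b)
    (G : I → (I → Bool) → I → Bool)
    (hG : ∀ l f g k, (∀ j < l, f j = g j) → k < l → G l f k = G l g k) (b : Bool)
    (Y : Set (Node I)) (p : Node I) (hp : p.1 ∈ J) (hd : DenseAbove J Y p)
    (hbad : ∀ s ∈ Y, s.1 ∈ J → Ext p s → ∃ i : Bool, ∀ p' : Node I, p'.1 ∈ J → Ext s p' →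
      s.1 < p'.1 → p'.2 s.1 = i → ¬ DenseAbove J {t ∈ Y | G t.1 t.2 s.1 = b} p') :
    ∃ (E : Set I) (z : I → Bool), ¬ E.Countable ∧ ∀ k ∈ E, ∀ l ∈ E, k < l → G l z k ≠ b := by
  classical
  let Pr : Type u := {a : Node I × Node I // a.1 ∈ Y ∧ a.1.1 ∈ J ∧ Ext p a.1 ∧ a.2.1 ∈ J ∧
    Ext a.1 a.2 ∧ a.1.1 < a.2.1 ∧ ∀ t ∈ Y, t.1 ∈ J → Ext a.2 t → G t.1 t.2 a.1.1 ≠ b}
  let R : Pr → Pr → Prop := fun a c => Ext a.1.2 c.1.1
  let M : Set Pr := maxChain R
  have hM : IsMaxChain R M := maxChain_spec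
  have hcmp : ∀ a ∈ M, ∀ c ∈ M, a ≠ c → R a c ∨ R c a := fun a ha c hc hac => hM.1 ha hc hac
  have hlev : ∀ a c : Pr, R a c → a.1.1.1 < c.1.1.1 := by
    intro a c h
    exact a.2.2.2.2.2.2.1.trans_le h.1
  have hcoh : ∀ a ∈ M, ∀ c ∈ M, ∀ j, j < a.1.2.1 → j < c.1.2.1 → a.1.2.2 j = c.1.2.2 j := by
    intro a ha c hc j hja hjc
    by_cases hac : a = c
    · rw [hac]
    · rcases hcmp a ha c hc hac with h | h
      · exact ((Ext.trans h c.2.2.2.2.2.1).2 j hja).symm
      · exact (Ext.trans h a.2.2.2.2.2.1).2 j hjc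
  let z : I → Bool := fun j => if h : ∃ a ∈ M, j < a.1.2.1 then h.choose.1.2.2 j else p.2 j
  have hz : ∀ a ∈ M, ∀ j, j < a.1.2.1 → z j = a.1.2.2 j := by
    intro a ha j hj
    have h : ∃ a ∈ M, j < a.1.2.1 := ⟨a, ha, hj⟩
    have h1 : z j = h.choose.1.2.2 j := dif_pos h
    rw [h1]
    exact hcoh _ h.choose_spec.1 a ha j h.choose_spec.2 hj
  refine ⟨(fun a : Pr => a.1.1.1) '' M, z, ?_, ?_⟩
  · intro hE
    have hinj : InjOn (fun a : Pr => a.1.1.1) M := by
      intro a ha c hc hac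
      by_contra hne
      rcases hcmp a ha c hc hne with h | h
      · exact absurd hac (hlev a c h).ne
      · exact absurd hac (hlev c a h).ne'
    have hMc : M.Countable := countable_of_injective_of_countable_image hinj hE
    obtain ⟨l, hlJ, hl⟩ := hJ (insert p.1 ((fun a : Pr => a.1.2.1) '' M))
      (by
        rintro _ (rfl | ⟨a, _, rfl⟩)
        · exact hp
        · exact a.2.2.2.2.1)
      ((hMc.image _).insert _)
    have hl0 : p.1 < l := hl _ (mem_insert _ _)
    have hl1 : ∀ a ∈ M, a.1.2.1 < l := fun a ha => hl _ (mem_insert_of_mem _ ⟨a, ha, rfl⟩)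
    have hu1 : ∀ a ∈ M, Ext a.1.2 (l, z) := fun a ha => ⟨(hl1 a ha).le, fun j hj => hz a ha j hj⟩
    have hu0 : Ext p (l, z) := by
      refine ⟨hl0.le, fun j hj => ?_⟩
      by_cases h : ∃ a ∈ M, j < a.1.2.1
      · obtain ⟨a, ha, hja⟩ := h
        rw [show ((l, z) : Node I).2 j = z j from rfl, hz a ha j hja]
        exact (Ext.trans a.2.2.2.1 a.2.2.2.2.2.1).2 j hj
      · exact dif_neg h
    obtain ⟨s, hsY, hsJ, hs⟩ := hd (l, z) hlJ hu0
    obtain ⟨i, hi⟩ := hbad s hsY hsJ (hu0.trans hs)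
    obtain ⟨m, hmJ, hm⟩ := hJ {s.1} (by simpa using hsJ) (countable_singleton _)
    have hsm : s.1 < m := hm _ rfl
    have hnd := hi (m, Function.update s.2 s.1 i) hmJ
      ⟨hsm.le, fun j hj => Function.update_of_ne hj.ne _ _⟩ hsm (by simp)
    unfold DenseAbove at hnd
    push Not at hnd
    obtain ⟨q, hqJ, hmq, hq⟩ := hnd
    have hsq : Ext s q := Ext.trans (q := (m, Function.update s.2 s.1 i))
      ⟨hsm.le, fun j hj => Function.update_of_ne hj.ne _ _⟩ hmq
    have hsq1 : s.1 < q.1 := hsm.trans_le hmq.1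
    let a0 : Pr := ⟨(s, q), hsY, hsJ, hu0.trans hs, hqJ, hsq, hsq1, fun t htY htJ htq hcon =>
      hq t ⟨htY, hcon⟩ htJ htq⟩
    have hR : ∀ a ∈ M, R a a0 := fun a ha => (hu1 a ha).trans hs
    have hch : IsChain R (insert a0 M) := by
      apply hM.1.insert
      intro a ha _
      right
      exact hR a ha
    have hMe := hM.2 hch (subset_insert _ _)
    have ha0 : a0 ∈ M := by
      rw [hMe]
      exact mem_insert _ _
    have h1 := hl1 a0 ha0
    have h2 : l ≤ s.1 := hs.1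
    exact absurd (h1.trans_le h2) hsq1.not_gt
  · rintro _ ⟨a, ha, rfl⟩ _ ⟨c, hc, rfl⟩ hlt
    have hac : a ≠ c := by
      rintro rfl
      exact lt_irrefl _ hlt
    have h : R a c := by
      rcases hcmp a ha c hc hac with h | h
      · exact h
      · exact absurd hlt (hlev c a h).le.not_gt
    have h1 := a.2.2.2.2.2.2.2 c.1.1 c.2.1 c.2.2.1 h
    rw [hG c.1.1.1 z c.1.1.2 a.1.1.1 _ hlt]
    · exact h1
    · intro j hj
      rw [hz c hc j (hj.trans c.2.2.2.2.2.2.1)]
      exact c.2.2.2.2.2.1.2 j hj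

section Tree

variable (J : Set I) (G : I → (I → Bool) → I → Bool) (b : Bool)

/-- A state of the construction of the perfect tree: a set of nodes, dense above a node. -/
def State : Type u := {a : Set (Node I) × Node I // a.2.1 ∈ J ∧ DenseAbove J a.1 a.2}

theorem step (hgood : ∀ (Y : Set (Node I)) (p : Node I), p.1 ∈ J → DenseAbove J Y p →
      ∃ s ∈ Y, s.1 ∈ J ∧ Ext p s ∧ ∀ i : Bool, ∃ p' : Node I, p'.1 ∈ J ∧ Ext s p' ∧
        s.1 < p'.1 ∧ p'.2 s.1 = i ∧ DenseAbove J {t ∈ Y | G t.1 t.2 s.1 = b} p') :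
    ∃ (sp : State J → Node I) (nx : State J → Bool → State J), ∀ a : State J,
      sp a ∈ a.1.1 ∧ Ext a.1.2 (sp a) ∧ ∀ i, Ext (sp a) (nx a i).1.2 ∧
        (sp a).1 < (nx a i).1.2.1 ∧ (nx a i).1.2.2 (sp a).1 = i ∧
        (nx a i).1.1 = {t ∈ a.1.1 | G t.1 t.2 (sp a).1 = b} := by
  classical
  have h1 : ∀ a : State J, ∃ s ∈ a.1.1, s.1 ∈ J ∧ Ext a.1.2 s ∧ ∀ i : Bool, ∃ p' : Node I,
      p'.1 ∈ J ∧ Ext s p' ∧ s.1 < p'.1 ∧ p'.2 s.1 = i ∧
      DenseAbove J {t ∈ a.1.1 | G t.1 t.2 s.1 = b} p' :=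
    fun a => hgood a.1.1 a.1.2 a.2.1 a.2.2
  choose sp hsp1 hsp2 hsp3 hsp4 using h1
  choose nx hnx1 hnx2 hnx3 hnx4 hnx5 using hsp4
  refine ⟨sp, fun a i => ⟨({t ∈ a.1.1 | G t.1 t.2 (sp a).1 = b}, nx a i), hnx1 a i, hnx5 a i⟩, ?_⟩
  intro a
  exact ⟨hsp1 a, hsp3 a, fun i => ⟨hnx2 a i, hnx3 a i, hnx4 a i, rfl⟩⟩

variable {J G b}

/-- The state after the turns `x 0, x 1, …, x (n - 1)`. -/
def path (nx : State J → Bool → State J) (a : State J) (x : ℕ → Bool) : ℕ → State J
  | 0 => a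
  | n + 1 => nx (path nx a x n) (x n)

theorem path_congr (nx : State J → Bool → State J) (a : State J) {x y : ℕ → Bool} {n : ℕ}
    (h : ∀ m < n, x m = y m) : path nx a x n = path nx a y n := by
  induction n with
  | zero => rfl
  | succ n ih =>
    simp only [path]
    rw [ih (fun m hm => h m (hm.trans (Nat.lt_succ_self n))), h n (Nat.lt_succ_self n)]

/-- The perfect tree: branches `a x` for `x : ℕ → Bool`, splitting levels `lv x n`. -/
theorem perfect (hgood : ∀ (Y : Set (Node I)) (p : Node I), p.1 ∈ J → DenseAbove J Y p →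
      ∃ s ∈ Y, s.1 ∈ J ∧ Ext p s ∧ ∀ i : Bool, ∃ p' : Node I, p'.1 ∈ J ∧ Ext s p' ∧
        s.1 < p'.1 ∧ p'.2 s.1 = i ∧ DenseAbove J {t ∈ Y | G t.1 t.2 s.1 = b} p')
    (hG : ∀ l f g k, (∀ j < l, f j = g j) → k < l → G l f k = G l g k)
    (Y : Set (Node I)) (p : Node I) (hp : p.1 ∈ J) (hd : DenseAbove J Y p) :
    ∃ (br : (ℕ → Bool) → I → Bool) (lv : (ℕ → Bool) → ℕ → I),
      (∀ x m n, m < n → lv x m < lv x n) ∧
      (∀ x y n, (∀ m < n, x m = y m) → x n ≠ y n → FD (br x) (br y) (lv x n)) ∧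
      (∀ x m n, m < n → G (lv x n) (br x) (lv x m) = b) := by
  classical
  obtain ⟨sp, nx, h⟩ := step J G b hgood
  let a0 : State J := ⟨(Y, p), hp, hd⟩
  let P : (ℕ → Bool) → ℕ → State J := fun x n => path nx a0 x n
  let t : (ℕ → Bool) → ℕ → Node I := fun x n => sp (P x n)
  have hP : ∀ x n, P x (n + 1) = nx (P x n) (x n) := fun x n => rfl
  have ht1 : ∀ x n, Ext (t x n) (P x (n + 1)).1.2 := fun x n => ((h (P x n)).2.2 (x n)).1
  have ht2 : ∀ x n, (t x n).1 < (P x (n + 1)).1.2.1 := fun x n => ((h (P x n)).2.2 (x n)).2.1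
  have ht3 : ∀ x n, (P x (n + 1)).1.2.2 (t x n).1 = x n :=
    fun x n => ((h (P x n)).2.2 (x n)).2.2.1
  have ht4 : ∀ x n, (P x (n + 1)).1.1 = {s ∈ (P x n).1.1 | G s.1 s.2 (t x n).1 = b} :=
    fun x n => ((h (P x n)).2.2 (x n)).2.2.2
  have ht5 : ∀ x n, t x n ∈ (P x n).1.1 := fun x n => (h (P x n)).1
  have ht6 : ∀ x n, Ext (P x n).1.2 (t x n) := fun x n => (h (P x n)).2.1
  have ht7 : ∀ x n, Ext (t x n) (t x (n + 1)) := fun x n => (ht1 x n).trans (ht6 x (n + 1))
  have ht8 : ∀ x n, (t x n).1 < (t x (n + 1)).1 := fun x n => (ht2 x n).trans_le (ht6 x (n + 1)).1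
  have ht9 : ∀ x n, (t x (n + 1)).2 (t x n).1 = x n := fun x n => by
    rw [(ht6 x (n + 1)).2 _ (ht2 x n)]
    exact ht3 x n
  have hext : ∀ x m n, m ≤ n → Ext (t x m) (t x n) := by
    intro x m n hmn
    induction hmn with
    | refl => exact Ext.refl _
    | step _ ih => exact ih.trans (ht7 x _)
  have hlt : ∀ x m n, m < n → (t x m).1 < (t x n).1 := fun x m n hmn =>
    (ht8 x m).trans_le (hext x (m + 1) n hmn).1
  have hsub : ∀ x m n, m ≤ n → (P x n).1.1 ⊆ (P x m).1.1 := by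
    intro x m n hmn
    induction hmn with
    | refl => exact subset_rfl
    | step _ ih =>
      intro s hs
      rw [ht4] at hs
      exact ih hs.1
  have hcol : ∀ x m n, m < n → G (t x n).1 (t x n).2 (t x m).1 = b := by
    intro x m n hmn
    have h1 := hsub x (m + 1) n hmn (ht5 x n)
    rw [ht4] at h1
    exact h1.2
  let br : (ℕ → Bool) → I → Bool := fun x j =>
    if h : ∃ n, j < (t x n).1 then (t x h.choose).2 j else false
  have hbr : ∀ x n, ∀ j < (t x n).1, br x j = (t x n).2 j := by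
    intro x n j hj
    have hh : ∃ n, j < (t x n).1 := ⟨n, hj⟩
    have h1 : br x j = (t x hh.choose).2 j := dif_pos hh
    rw [h1]
    rcases le_total hh.choose n with h2 | h2
    · exact ((hext x _ _ h2).2 j hh.choose_spec).symm
    · exact (hext x _ _ h2).2 j hj
  have hcg : ∀ x y n, (∀ m < n, x m = y m) → t x n = t y n := by
    intro x y n hxy
    change sp (path nx a0 x n) = sp (path nx a0 y n)
    rw [path_congr nx a0 hxy]
  refine ⟨br, fun x n => (t x n).1, hlt, ?_, ?_⟩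
  · intro x y n hxy hne
    have he := hcg x y n hxy
    refine ⟨?_, ?_⟩
    · change br x (t x n).1 ≠ br y (t x n).1
      rw [hbr x (n + 1) _ (ht8 x n), ht9 x n]
      rw [he, hbr y (n + 1) _ (ht8 y n), ht9 y n]
      exact hne
    · intro j hj
      change j < (t x n).1 at hj
      rw [hbr x n j hj]
      rw [he] at hj ⊢
      rw [hbr y n j hj]
  · intro x m n hmn
    change G (t x n).1 (br x) (t x m).1 = b
    rw [hG (t x n).1 (br x) (t x n).2 (t x m).1 (hbr x n) (hlt x m n hmn)]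
    exact hcol x m n hmn

end Tree

end Nodes

section Prep

variable {I : Type u} [LinearOrder I]

/-- An uncountable well-order has a part without countable cofinal sets. -/
theorem exists_regular_part [WellFoundedLT I] (hI : ¬ Countable I) :
    ∃ J : Set I, ∀ C ⊆ J, C.Countable → ∃ b ∈ J, ∀ c ∈ C, c < b := by
  classical
  let J : Set I := {i | {j | j ≤ i}.Countable}
  have hJ : ¬ J.Countable := by
    by_cases h : (Jᶜ).Nonempty
    · obtain ⟨m, hm, hmin⟩ := WellFounded.has_min (wellFounded_lt (α := I)) _ h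
      intro hc
      apply hm
      have hsub : {j | j ≤ m} ⊆ insert m J := by
        intro j hj
        rcases (show j ≤ m from hj).lt_or_eq with hlt | heq
        · right
          by_contra hjJ
          exact hmin j hjJ hlt
        · left; exact heq
      exact (hc.insert m).mono hsub
    · intro hc
      apply hI
      rw [← Set.countable_univ_iff]
      refine hc.mono ?_
      intro j _
      by_contra hjJ
      exact h ⟨j, hjJ⟩
  refine ⟨J, fun C hCJ hC => ?_⟩
  have hU : (⋃ c ∈ C, {j | j ≤ c}).Countable := Countable.biUnion hC (fun c hc => hCJ hc)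
  have hne : ∃ b ∈ J, b ∉ ⋃ c ∈ C, {j | j ≤ c} := by
    by_contra hcon
    push Not at hcon
    exact hJ (hU.mono hcon)
  obtain ⟨b, hbJ, hb⟩ := hne
  refine ⟨b, hbJ, fun c hc => ?_⟩
  by_contra hcb
  apply hb
  exact mem_biUnion hc (not_lt.mp hcb)

theorem exists_thin_infinite {S : Type*} [LinearOrder S] [WellFoundedLT S] (Y : Set S)
    (hY : Y.Infinite) : ∃ Z ⊆ Y, Z.Infinite ∧ ∀ x ∈ Z, {y ∈ Z | y ≤ x}.Finite := by
  classical
  let Z : Set S := {x ∈ Y | {y ∈ Y | y ≤ x}.Finite}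
  have hZY : Z ⊆ Y := fun x hx => hx.1
  refine ⟨Z, hZY, ?_, fun x hx => hx.2.subset (fun y hy => ⟨hZY hy.1, hy.2⟩)⟩
  by_cases h : (Y \ Z).Nonempty
  · obtain ⟨m, hm, hmin⟩ := WellFounded.has_min (wellFounded_lt (α := S)) _ h
    intro hf
    apply hm.2
    refine ⟨hm.1, (hf.insert m).subset ?_⟩
    rintro j ⟨hjY, hj⟩
    rcases hj.lt_or_eq with hlt | heq
    · right
      by_contra hjZ
      exact hmin j ⟨hjY, hjZ⟩ hlt
    · left; exact heq
  · have hYZ : Y ⊆ Z := by
      intro x hx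
      by_contra hxZ
      exact h ⟨x, hx, hxZ⟩
    exact hY.mono hYZ

/-- In an infinite set some element splits off first from infinitely many later ones. -/
theorem split_one [WellFoundedLT I] {S : Type*} [LinearOrder S] (e : S → I → Bool)
    (he : Injective e) (Y : Set S) (hY : Y.Infinite) (hfin : ∀ x ∈ Y, {y ∈ Y | y ≤ x}.Finite) :
    ∃ x ∈ Y, ∃ k, ∃ Z ⊆ Y, Z.Infinite ∧ ∀ y ∈ Z, x < y ∧ FD (e x) (e y) k := by
  classical
  let K : Set I := {k | ∃ x ∈ Y, ∃ y ∈ Y, FD (e x) (e y) k}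
  have hK : K.Nonempty := by
    obtain ⟨x, hx, y, hy, hxy⟩ := hY.nontrivial
    obtain ⟨k, hk⟩ := exists_FD (he.ne hxy)
    exact ⟨k, x, hx, y, hy, hk⟩
  obtain ⟨k, ⟨u, hu, v, hv, huv⟩, hmin⟩ := WellFounded.has_min (wellFounded_lt (α := I)) _ hK
  have hagree : ∀ x ∈ Y, ∀ y ∈ Y, ∀ j < k, e x j = e y j := by
    intro x hx y hy j hj
    by_contra hne
    have hxy : e x ≠ e y := fun h => hne (by rw [h])
    obtain ⟨m, hm⟩ := exists_FD hxy
    have hmj : m ≤ j := by
      by_contra hjm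
      exact hne (hm.2 j (not_le.mp hjm))
    exact hmin m ⟨x, hx, y, hy, hm⟩ (hmj.trans_lt hj)
  have hcase : ∃ i : Bool, {y ∈ Y | e y k = i}.Infinite := by
    by_contra hcon
    push Not at hcon
    have h1 : Y ⊆ {y ∈ Y | e y k = true} ∪ {y ∈ Y | e y k = false} := by
      intro y hy
      cases h : e y k with
      | false => right; exact ⟨hy, h⟩
      | true => left; exact ⟨hy, h⟩
    exact hY (((hcon true).union (hcon false)).subset h1)
  obtain ⟨i, hi⟩ := hcase
  obtain ⟨x, hx, hxk⟩ : ∃ x ∈ Y, e x k ≠ i := by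
    by_cases h : e u k = i
    · exact ⟨v, hv, fun h' => huv.1 (h.trans h'.symm)⟩
    · exact ⟨u, hu, h⟩
  refine ⟨x, hx, k, {y ∈ Y | e y k = i} \ {y ∈ Y | y ≤ x}, fun y hy => hy.1.1,
    hi.sdiff (hfin x hx), ?_⟩
  intro y hy
  refine ⟨?_, ?_, hagree x hx y hy.1.1⟩
  · by_contra hxy
    exact hy.2 ⟨hy.1.1, not_lt.mp hxy⟩
  · intro h
    exact hxk (h.trans hy.1.2)

theorem FD.lt_of {x y w : I → Bool} {k l : I} (h1 : FD x y k) (h2 : FD x w k) (h3 : FD y w l) :
    k < l := by
  by_contra hcon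
  rcases (not_lt.mp hcon).lt_or_eq with h | h
  · exact h3.1 ((h1.2 l h).symm.trans (h2.2 l h))
  · subst h
    have ha := h1.1
    have hb := h2.1
    have hc := h3.1
    revert ha hb hc
    cases x l <;> cases y l <;> cases w l <;> simp

/-- Every infinite set has a triple `x < y < w` in which `x` splits off first, then `y`, and both
on the same side. -/
theorem exists_triple [WellFoundedLT I] {S : Type*} [LinearOrder S] [WellFoundedLT S]
    (e : S → I → Bool) (he : Injective e) (Y : Set S) (hY : Y.Infinite) :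
    ∃ x ∈ Y, ∃ y ∈ Y, ∃ w ∈ Y, x < y ∧ y < w ∧ ∃ k l, k < l ∧ FD (e x) (e y) k ∧
      FD (e y) (e w) l ∧ e x k = e y l := by
  classical
  obtain ⟨Y1, hY1, hY1i, hY1f⟩ := exists_thin_infinite Y hY
  obtain ⟨x0, hx0, k0, Y2, hY2, hY2i, h0⟩ := split_one e he Y1 hY1i hY1f
  have hY2f : ∀ x ∈ Y2, {y ∈ Y2 | y ≤ x}.Finite := fun x hx =>
    (hY1f x (hY2 hx)).subset (fun y hy => ⟨hY2 hy.1, hy.2⟩)
  obtain ⟨x1, hx1, k1, Y3, hY3, hY3i, h1⟩ := split_one e he Y2 hY2i hY2f
  have hY3f : ∀ x ∈ Y3, {y ∈ Y3 | y ≤ x}.Finite := fun x hx =>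
    (hY2f x (hY3 hx)).subset (fun y hy => ⟨hY3 hy.1, hy.2⟩)
  obtain ⟨x2, hx2, k2, Y4, hY4, hY4i, h2⟩ := split_one e he Y3 hY3i hY3f
  obtain ⟨x3, hx3⟩ := hY4i.nonempty
  have a01 := h0 x1 hx1
  have a02 := h0 x2 (hY3 hx2)
  have a03 := h0 x3 (hY3 (hY4 hx3))
  have a12 := h1 x2 hx2
  have a13 := h1 x3 (hY4 hx3)
  have a23 := h2 x3 hx3
  have m0 : x0 ∈ Y := hY1 hx0
  have m1 : x1 ∈ Y := hY1 (hY2 hx1)
  have m2 : x2 ∈ Y := hY1 (hY2 (hY3 hx2))
  have m3 : x3 ∈ Y := hY1 (hY2 (hY3 (hY4 hx3)))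
  have k01 : k0 < k1 := FD.lt_of a01.2 a02.2 a12.2
  have k12 : k1 < k2 := FD.lt_of a12.2 a13.2 a23.2
  by_cases h01 : e x0 k0 = e x1 k1
  · exact ⟨x0, m0, x1, m1, x2, m2, a01.1, a12.1, k0, k1, k01, a01.2, a12.2, h01⟩
  · by_cases h12 : e x1 k1 = e x2 k2
    · exact ⟨x1, m1, x2, m2, x3, m3, a12.1, a23.1, k1, k2, k12, a12.2, a23.2, h12⟩
    · have h02 : e x0 k0 = e x2 k2 := by
        revert h01 h12
        cases e x0 k0 <;> cases e x1 k1 <;> cases e x2 k2 <;> simp
      exact ⟨x0, m0, x2, m2, x3, m3, a02.1, a23.1, k0, k2, k01.trans k12, a02.2, a23.2, h02⟩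

end Prep

section Main

theorem exists_first_diff {x y : ℕ → Bool} (h : x ≠ y) :
    ∃ n, (∀ m < n, x m = y m) ∧ x n ≠ y n := by
  obtain ⟨n, hn⟩ := exists_FD h
  exact ⟨n, hn.2, hn.1⟩

theorem uncountable_seq : ¬ Countable (ℕ → Bool) := by
  have h2 : #(ℕ → Bool) = 2 ^ ℵ₀ := by simp
  intro h
  have h1 : #(ℕ → Bool) ≤ ℵ₀ := Cardinal.mk_le_aleph0_iff.mpr h
  rw [h2] at h1
  exact absurd (Cardinal.cantor ℵ₀) h1.not_gt

variable {I : Type u} [LinearOrder I] [WellFoundedLT I]

/-- An uncountable set whose distinguished triples all have the same class. -/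
theorem exists_uncountable (hI : ¬ Countable I) {S : Type u} (e : S ≃ (I → Bool))
    (G : I → (I → Bool) → I → Bool)
    (hG : ∀ l f g k, (∀ j < l, f j = g j) → k < l → G l f k = G l g k) :
    ∃ (B : Set S) (b : Bool), ¬ B.Countable ∧ ∀ x ∈ B, ∀ y ∈ B, ∀ w ∈ B, ∀ k l,
      FD (e x) (e y) k → FD (e y) (e w) l → k < l → G l (e y) k = b := by
  classical
  obtain ⟨J, hJ⟩ := exists_regular_part hI
  by_cases hgood : ∀ (Y : Set (Node I)) (p : Node I), p.1 ∈ J → DenseAbove J Y p →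
      ∃ s ∈ Y, s.1 ∈ J ∧ Ext p s ∧ ∀ i : Bool, ∃ p' : Node I, p'.1 ∈ J ∧ Ext s p' ∧
        s.1 < p'.1 ∧ p'.2 s.1 = i ∧ DenseAbove J {t ∈ Y | G t.1 t.2 s.1 = true} p'
  · obtain ⟨m0, hm0, _⟩ := hJ ∅ (empty_subset _) countable_empty
    obtain ⟨br, lv, h1, h2, h3⟩ := perfect (b := true) hgood hG univ (m0, fun _ => false) hm0
      (fun q hq _ => ⟨q, mem_univ _, hq, Ext.refl q⟩)
    have hinj : Injective (fun x : ℕ → Bool => e.symm (br x)) := by
      intro x y hxy
      by_contra hne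
      obtain ⟨n, hn1, hn2⟩ := exists_first_diff hne
      have h4 := (h2 x y n hn1 hn2).1
      have h5 : br x = br y := e.symm.injective hxy
      exact h4 (by rw [h5])
    refine ⟨range (fun x : ℕ → Bool => e.symm (br x)), true, ?_, ?_⟩
    · intro hc
      apply uncountable_seq
      rw [← image_univ] at hc
      have := countable_of_injective_of_countable_image hinj.injOn hc
      exact Set.countable_univ_iff.mp this
    · rintro _ ⟨u, rfl⟩ _ ⟨v, rfl⟩ _ ⟨q, rfl⟩ k l hk hl hkl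
      simp only [Equiv.apply_symm_apply] at hk hl ⊢
      have huv : u ≠ v := by
        rintro rfl
        exact hk.1 rfl
      have hvq : v ≠ q := by
        rintro rfl
        exact hl.1 rfl
      obtain ⟨m, hm1, hm2⟩ := exists_first_diff huv.symm
      obtain ⟨n, hn1, hn2⟩ := exists_first_diff hvq
      have hkm : k = lv v m := FD.unique hk.symm (h2 v u m hm1 hm2)
      have hln : l = lv v n := FD.unique hl (h2 v q n hn1 hn2)
      have hmn : m < n := by
        by_contra hcon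
        rcases (not_lt.mp hcon).lt_or_eq with h | h
        · have := h1 v n m h
          rw [← hkm, ← hln] at this
          exact absurd hkl this.not_gt
        · rw [h, ← hkm] at hln
          exact hkl.ne' hln
      rw [hkm, hln]
      exact h3 v m n hmn
  · push Not at hgood
    obtain ⟨Y, p, hp, hd, hbad⟩ := hgood
    obtain ⟨E, z, hE, hz⟩ := long_chain J hJ G hG true Y p hp hd (by
      intro s hsY hsJ hps
      obtain ⟨i, hi⟩ := hbad s hsY hsJ hps
      exact ⟨i, hi⟩)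
    let a : I → I → Bool := fun d j => if j < d then z j else if j = d then !(z d) else false
    have ha1 : ∀ d j, j < d → a d j = z j := fun d j h => if_pos h
    have ha2 : ∀ d, a d d = !(z d) := fun d => by simp [a]
    have ha3 : ∀ d d', d < d' → FD (a d) (a d') d := by
      intro d d' h
      refine ⟨?_, fun j hj => ?_⟩
      · rw [ha2, ha1 d' d h]
        simp
      · rw [ha1 d j hj, ha1 d' j (hj.trans h)]
    have hinj : Injective (fun d : I => e.symm (a d)) := by
      intro d d' hdd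
      have h5 : a d = a d' := e.symm.injective hdd
      rcases lt_trichotomy d d' with h | h | h
      · exact absurd (by rw [h5]) (ha3 d d' h).1
      · exact h
      · exact absurd (by rw [h5]) (ha3 d' d h).1
    refine ⟨(fun d : I => e.symm (a d)) '' E, false, ?_, ?_⟩
    · intro hc
      exact hE (countable_of_injective_of_countable_image hinj.injOn hc)
    · rintro _ ⟨d, hd, rfl⟩ _ ⟨d', hd', rfl⟩ _ ⟨d'', hd'', rfl⟩ k l hk hl hkl
      simp only [Equiv.apply_symm_apply] at hk hl ⊢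
      have key : ∀ l ∈ E, k < l → k = d → (∀ j < l, a d' j = z j) → G l (a d') k = false := by
        intro l hlE hkl hkd hag
        rw [hG l (a d') z k hag hkl]
        have := hz k (hkd ▸ hd) l hlE hkl
        simpa using this
      rcases lt_trichotomy d' d'' with h | h | h
      · have hl' : l = d' := FD.unique hl (ha3 d' d'' h)
        rcases lt_trichotomy d d' with h' | h' | h'
        · have hk' : k = d := FD.unique hk (ha3 d d' h')
          exact key l (hl' ▸ hd') hkl hk' (fun j hj => ha1 d' j (hl' ▸ hj))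
        · exact absurd (by rw [h']) hk.1
        · have hk' : k = d' := FD.unique hk (ha3 d' d h').symm
          exact absurd (hk'.trans hl'.symm) hkl.ne
      · exact absurd (by rw [h]) hl.1
      · have hl' : l = d'' := FD.unique hl (ha3 d'' d' h).symm
        rcases lt_trichotomy d d' with h' | h' | h'
        · have hk' : k = d := FD.unique hk (ha3 d d' h')
          exact key l (hl' ▸ hd'') hkl hk' (fun j hj => ha1 d' j ((hl' ▸ hj : j < d'').trans h))
        · exact absurd (by rw [h']) hk.1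
        · have hk' : k = d' := FD.unique hk (ha3 d' d h').symm
          exfalso
          rw [hk', hl'] at hkl
          exact absurd hkl h.not_gt

/-- No partition of step-up type has infinite homogeneous sets of both classes in every set of
size `ℵ₁`. -/
theorem main (hI : ¬ Countable I) {S : Type u} [LinearOrder S] [WellFoundedLT S]
    (e : S ≃ (I → Bool)) (c : {t : Finset S // t.card = 3} → Bool)
    (F : I → I → (I → Bool) → Bool)
    (hF : ∀ k l f g, (∀ j ≤ l, f j = g j) → F k l f = F k l g)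
    (hc : ∀ (t : {t : Finset S // t.card = 3}) (x y w : S) (k l : I), (t : Finset S) = {x, y, w} →
      x < y → y < w → FD (e x) (e y) k → FD (e y) (e w) l → k < l → c t = F k l (e y)) :
    ∃ A : Set S, #A = ℵ₁ ∧ ∃ i : Bool, ∀ Y ⊆ A, Y.Infinite →
      ∃ t : {t : Finset S // t.card = 3}, (↑(t : Finset S) : Set S) ⊆ Y ∧ c t ≠ i := by
  classical
  let G : I → (I → Bool) → I → Bool :=
    fun l f k => F k l (fun j => if j < l then f j else !(f k))
  have hG : ∀ l f g k, (∀ j < l, f j = g j) → k < l → G l f k = G l g k := by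
    intro l f g k h hk
    apply hF
    intro j _
    by_cases hj : j < l
    · simp only [if_pos hj]
      exact h j hj
    · simp only [if_neg hj]
      rw [h k hk]
  obtain ⟨B, b, hB, hcol⟩ := exists_uncountable hI e G hG
  have h1 : ℵ₁ ≤ #B := by
    rw [← Cardinal.succ_aleph0]
    apply Order.succ_le_of_lt
    rw [← not_le]
    intro h
    exact hB (Cardinal.le_aleph0_iff_set_countable.mp h)
  obtain ⟨A, hAB, hA⟩ := Cardinal.le_mk_iff_exists_subset.mp h1
  refine ⟨A, hA, !b, fun Y hYA hY => ?_⟩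
  obtain ⟨x, hx, y, hy, w, hw, hxy, hyw, k, l, hkl, hk, hl, hxyk⟩ :=
    exists_triple e e.injective Y hY
  have hcard : ({x, y, w} : Finset S).card = 3 := by
    rw [Finset.card_eq_three]
    exact ⟨x, y, w, hxy.ne, (hxy.trans hyw).ne, hyw.ne, rfl⟩
  refine ⟨⟨{x, y, w}, hcard⟩, ?_, ?_⟩
  · intro a ha
    simp only [Finset.coe_insert, Finset.coe_singleton, Set.mem_insert_iff,
      Set.mem_singleton_iff] at ha
    rcases ha with rfl | rfl | rfl
    · exact hx
    · exact hy
    · exact hw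
  · rw [hc ⟨{x, y, w}, hcard⟩ x y w k l rfl hxy hyw hk hl hkl]
    have h2 := hcol x (hAB (hYA hx)) y (hAB (hYA hy)) w (hAB (hYA hw)) k l hk hl hkl
    have h3 : F k l (e y) = G l (e y) k := by
      apply hF
      intro j hj
      by_cases hjl : j < l
      · simp only [if_pos hjl]
      · have hjl' : j = l := le_antisymm hj (not_lt.mp hjl)
        simp only [if_neg hjl]
        rw [hjl', ← hxyk]
        have := hk.1
        revert this
        cases e x k <;> cases e y k <;> simp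
    rw [h3, h2]
    cases b <;> simp

end Main

end Pool.Agent.Lib.MP_dc3585_lc.StepUp
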