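import Mathlib
import Pool.Agent.Lib.MP_dc3585_lc.StepUp

/-!
Partitions of the triples of a set of binary sequences which have the Baire property: a dichotomy
(uncountable comb or perfect tree).
-/

open Cardinal Set Function

namespace Pool.Agent.Lib.MP_dc3585_lc.Baire

open Pool.Agent.Lib.MP_dc3585_lc.StepUp

universe u

section Basic

variable {I : Type u} [LinearOrder I]

/-- Agreement below the place `a`. -/
def Ag (a : I) (f g : I → Bool) : Prop := ∀ j < a, f j = g j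

theorem Ag.refl (a : I) (f : I → Bool) : Ag a f f := fun _ _ => rfl

theorem Ag.symm {a : I} {f g : I → Bool} (h : Ag a f g) : Ag a g f := fun j hj => (h j hj).symm

theorem Ag.trans {a : I} {f g h : I → Bool} (h1 : Ag a f g) (h2 : Ag a g h) : Ag a f h :=
  fun j hj => (h1 j hj).trans (h2 j hj)

theorem Ag.mono {a b : I} {f g : I → Bool} (hab : a ≤ b) (h : Ag b f g) : Ag a f g :=
  fun j hj => h j (hj.trans_le hab)

theorem FD.congr {a k : I} {x x' y y' : I → Bool} (hx : Ag a x' x) (hy : Ag a y' y) (hk : k < a)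
    (h : FD x y k) : FD x' y' k := by
  refine ⟨?_, fun j hj => ?_⟩
  · rw [hx k hk, hy k hk]
    exact h.1
  · rw [hx j (hj.trans hk), hy j (hj.trans hk)]
    exact h.2 j hj

variable (D : Bool → I → (I → Bool) → (I → Bool) → (I → Bool) → Prop) (b : Bool)

/-- The statements `D b g x p q` depend only on the parts of `x, p, q` below `g` and go up. -/
def MonoD : Prop := ∀ b g g' x x' p p' q q', g ≤ g' → Ag g x' x → Ag g p' p → Ag g q' q →
  D b g x p q → D b g' x' p' q'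

/-- All countable families of nodes taken from `S` can be given the class `b` together at some
later splitting above `v`. -/
def Full (a : I) (S : Set (I → Bool)) (v : I → Bool) : Prop :=
  ∀ β, a ≤ β → ∀ (ι : Type) (_ : Countable ι) (W : ι → I → Bool), (∀ n, W n ∈ S) →
    ∀ v' : I → Bool, Ag a v' v → ∃ g l, β ≤ l ∧ l < g ∧
      ∃ (W' : ι → I → Bool) (p q : I → Bool), (∀ n, Ag β (W' n) (W n)) ∧ Ag β p v' ∧ FD p q l ∧
        ∀ n, D b g (W' n) p q

/-- Above `w` and `v` the cone of `w` never becomes full. -/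
def Bd (S : Set (I → Bool)) (a : I) (w v : I → Bool) : Prop :=
  ∀ β, a ≤ β → ∀ w' v' : I → Bool, Ag a w' w → Ag a v' v → ¬ Full D b β (S ∪ {f | Ag β f w'}) v'

/-- The splitting `p, q` has a side which never becomes full. -/
def Sp (S : Set (I → Bool)) (g : I) (p q : I → Bool) : Prop :=
  ∃ β, g ≤ β ∧ ∃ w v : I → Bool, ((Ag g w p ∧ Ag g v q) ∨ (Ag g w q ∧ Ag g v p)) ∧
    Bd D b S β w v

variable {D b}

theorem Full.mono {a a' : I} {S S' : Set (I → Bool)} {v v' : I → Bool} (ha : a ≤ a')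
    (hS : S' ⊆ S) (hv : Ag a v' v) (h : Full D b a S v) : Full D b a' S' v' := by
  intro β haβ ι hι W hW u hu
  exact h β (ha.trans haβ) ι hι W (fun n => hS (hW n)) u ((hu.mono ha).trans hv)

theorem Bd.mono {a a' : I} {S : Set (I → Bool)} {w w' v v' : I → Bool} (ha : a ≤ a')
    (hw : Ag a w' w) (hv : Ag a v' v) (h : Bd D b S a w v) : Bd D b S a' w' v' := by
  intro β haβ x y hx hy
  exact h β (ha.trans haβ) x y ((hx.mono ha).trans hw) ((hy.mono ha).trans hv)

end Basic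

section Comb

variable {I : Type u} [LinearOrder I]

/-- A stage of the construction of the comb. -/
structure PS (I : Type u) where
  lv : I
  E : Set I
  a : I → I → Bool
  v : I → Bool

variable (D : Bool → I → (I → Bool) → (I → Bool) → (I → Bool) → Prop) (b : Bool)

structure Pre (al : I) (S : Set (I → Bool)) (v0 : I → Bool) (p : PS I) : Prop where
  le : al ≤ p.lv
  ag : Ag al p.v v0
  cnt : p.E.Countable
  lt : ∀ k ∈ p.E, k < p.lv
  fd : ∀ k ∈ p.E, FD (p.a k) p.v k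
  bd : ∀ k ∈ p.E, Bd D b S p.lv (p.a k) p.v
  col : ∀ k ∈ p.E, ∀ l ∈ p.E, k < l → D (!b) p.lv (p.a k) p.v (p.a l)

variable {D b}

theorem comb_step (hI : ∀ D : Set I, D.Countable → ∃ m, ∀ c ∈ D, c < m)
    (hmD : MonoD D) (hsym : ∀ b g x p q, D b g x p q → D b g x q p)
    (hgood : ∀ x p q k l g, FD x p k → FD p q l → k < l → l < g → ∃ g' x' p' q' b, g ≤ g' ∧
      Ag g x' x ∧ Ag g p' p ∧ Ag g q' q ∧ D b g' x' p' q')
    {al : I} {S : Set (I → Bool)} {v0 : I → Bool}
    (hdense : ∀ β, al ≤ β → ∀ (ι : Type) (_ : Countable ι) (W : ι → I → Bool),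
      (∀ n, W n ∈ S) → ∀ v' : I → Bool, Ag al v' v0 → ∃ g l, β ≤ l ∧ l < g ∧
        ∃ (W' : ι → I → Bool) (p q : I → Bool), (∀ n, Ag β (W' n) (W n)) ∧ Ag β p v' ∧
          FD p q l ∧ (∀ n, D b g (W' n) p q) ∧ Sp D b S g p q)
    (p : PS I) (hp : Pre D b al S v0 p) :
    ∃ (q : PS I) (l : I), Pre D b al S v0 q ∧ p.lv ≤ l ∧ l < q.lv ∧ q.E = insert l p.E ∧
      (∀ k ∈ p.E, Ag p.lv (q.a k) (p.a k)) ∧ Ag p.lv q.v p.v := by
  classical
  have : Nonempty I := ⟨p.lv⟩
  obtain ⟨f, hf⟩ := (Set.countable_iff_exists_subset_range (s := p.E)).mp hp.cnt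
  let N : Type u := {q : I × (I → Bool) // p.lv ≤ q.1 ∧ Ag p.lv q.2 p.v}
  have key : ∀ (n : ℕ) (q : N), ∃ (q' : N) (ι : Type) (_ : Countable ι) (W : ι → I → Bool),
      q.1.1 ≤ q'.1.1 ∧ Ag q.1.1 q'.1.2 q.1.2 ∧
      (∀ m, W m ∈ S ∨ Ag p.lv (W m) (p.a (f n))) ∧
      (f n ∈ p.E → ∀ g l, q'.1.1 ≤ l → l < g → ∀ (W' : ι → I → Bool) (u v : I → Bool),
        (∀ m, Ag q'.1.1 (W' m) (W m)) → Ag q'.1.1 u q'.1.2 → FD u v l →
        ∃ m, ¬ D b g (W' m) u v) := by
    intro n q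
    by_cases hn : f n ∈ p.E
    · have h1 := hp.bd (f n) hn q.1.1 q.2.1 (p.a (f n)) q.1.2 (Ag.refl _ _) q.2.2
      unfold Full at h1
      push Not at h1
      obtain ⟨β, hqβ, ι, hι, W, hW, v', hv', h2⟩ := h1
      refine ⟨⟨(β, v'), q.2.1.trans hqβ, (hv'.mono q.2.1).trans q.2.2⟩, ι, hι, W, hqβ,
        hv', ?_, ?_⟩
      · intro m
        rcases hW m with h | h
        · left; exact h
        · right; exact Ag.mono q.2.1 h
      · intro _ g l hβl hlg W' u v hW' hu huv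
        exact h2 g l hβl hlg W' u v hW' hu huv
    · exact ⟨q, Empty, inferInstance, fun x => x.elim, le_rfl, Ag.refl _ _, fun x => x.elim,
        fun h => absurd h hn⟩
  choose nx ι hι W h1 h2 h3 h4 using key
  let sq : ℕ → N := fun n => Nat.rec ⟨(p.lv, p.v), le_rfl, Ag.refl _ _⟩ (fun n q => nx n q) n
  have hsq : ∀ n, sq (n + 1) = nx n (sq n) := fun n => rfl
  have hmono : ∀ m n, m ≤ n → (sq m).1.1 ≤ (sq n).1.1 ∧ Ag (sq m).1.1 (sq n).1.2 (sq m).1.2 := by
    intro m n hmn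
    induction hmn with
    | refl => exact ⟨le_rfl, Ag.refl _ _⟩
    | step _ ih =>
      rename_i n' _
      refine ⟨ih.1.trans (h1 n' (sq n')), ?_⟩
      exact Ag.trans (Ag.mono ih.1 (h2 n' (sq n'))) ih.2
  obtain ⟨β, hβ⟩ := hI (range (fun n => (sq n).1.1)) (countable_range _)
  have hβ' : ∀ n, (sq n).1.1 < β := fun n => hβ _ ⟨n, rfl⟩
  let vω : I → Bool := fun j => if h : ∃ n, j < (sq n).1.1 then (sq h.choose).1.2 j else false
  have hvω : ∀ n, Ag (sq n).1.1 vω (sq n).1.2 := by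
    intro n j hj
    have hh : ∃ n, j < (sq n).1.1 := ⟨n, hj⟩
    have e1 : vω j = (sq hh.choose).1.2 j := dif_pos hh
    rw [e1]
    rcases le_total hh.choose n with h | h
    · exact ((hmono _ _ h).2 j hh.choose_spec).symm
    · exact (hmono _ _ h).2 j hj
  have hpv : Ag p.lv vω p.v := (hvω 0)
  let K : Type := Σ n : ℕ, {m : ι n (sq n) // W n (sq n) m ∈ S}
  have : ∀ n, Countable (ι n (sq n)) := fun n => hι n (sq n)
  have hK : Countable K := inferInstance
  obtain ⟨g0, l, hβl, hlg0, W', u0, v0', hW', hu0, huv0, hone, hsp⟩ := hdense β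
    (hp.le.trans (hβ' 0).le) K hK (fun x => W x.1 (sq x.1) x.2.1) (fun x => x.2.2) vω
    ((hpv.mono hp.le).trans hp.ag)
  obtain ⟨g1, hg01, w1, v1, hwv, hbd⟩ := hsp
  -- the main node `v1` and the side node `w1`
  have hlg1 : l < g1 := hlg0.trans_le hg01
  have hfd1 : FD v1 w1 l := by
    rcases hwv with ⟨ha, hb⟩ | ⟨ha, hb⟩
    · exact FD.congr hb ha hlg0 huv0.symm
    · exact FD.congr hb ha hlg0 huv0
  have hv1 : Ag β v1 vω := by
    rcases hwv with ⟨ha, hb⟩ | ⟨ha, hb⟩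
    · intro j hj
      rw [hb j (hj.trans_le (hβl.trans hlg0.le)), ← huv0.2 j (hj.trans_le hβl)]
      exact hu0 j hj
    · intro j hj
      rw [hb j (hj.trans_le (hβl.trans hlg0.le))]
      exact hu0 j hj
  have hone1 : ∀ n, D b g1 (W' n) v1 w1 := by
    intro n
    rcases hwv with ⟨ha, hb⟩ | ⟨ha, hb⟩
    · exact hmD _ _ _ _ _ _ _ _ _ hg01 (Ag.refl _ _) hb ha (hsym _ _ _ _ _ (hone n))
    · exact hmD _ _ _ _ _ _ _ _ _ hg01 (Ag.refl _ _) hb ha (hone n)
  have hpl : p.lv ≤ l := (hβ' 0).le.trans hβl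
  -- second recursion: all new members are decided one after the other
  let N2 : Type u := {q : I × (I → Bool) × (I → Bool) // g1 ≤ q.1 ∧ Ag g1 q.2.1 v1 ∧
    Ag g1 q.2.2 w1}
  let K2 : Type := Σ n : ℕ, ι n (sq n)
  have hK2 : Countable K2 := inferInstance
  obtain ⟨nr, hnr⟩ := Countable.exists_injective_nat K2
  have key2 : ∀ (n : ℕ) (q : N2), ∃ (q' : N2) (g : I → Bool) (β : Bool), q.1.1 ≤ q'.1.1 ∧
      Ag q.1.1 q'.1.2.1 q.1.2.1 ∧ Ag q.1.1 q'.1.2.2 q.1.2.2 ∧
      ∀ x : K2, nr x = n → f x.1 ∈ p.E → Ag p.lv (W x.1 (sq x.1) x.2) (p.a (f x.1)) →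
        Ag q.1.1 g (W x.1 (sq x.1) x.2) ∧ D β q'.1.1 g q'.1.2.1 q'.1.2.2 := by
    intro n q
    by_cases hx : ∃ x : K2, nr x = n ∧ f x.1 ∈ p.E ∧ Ag p.lv (W x.1 (sq x.1) x.2) (p.a (f x.1))
    · obtain ⟨x, hxn, hxE, hxW⟩ := hx
      have hlq : l < q.1.1 := hlg1.trans_le q.2.1
      have hfdq : FD q.1.2.1 q.1.2.2 l := FD.congr q.2.2.1 q.2.2.2 hlg1 hfd1
      have hqv : Ag β q.1.2.1 vω := (q.2.2.1.mono (hβl.trans hlg1.le)).trans hv1
      have hqp : Ag p.lv q.1.2.1 p.v := (hqv.mono (hβ' 0).le).trans hpv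
      have hk1 : FD (W x.1 (sq x.1) x.2) q.1.2.1 (f x.1) :=
        FD.congr hxW hqp (hp.lt _ hxE) (hp.fd _ hxE)
      obtain ⟨g2, x', p', q', β', hg2, hx', hp', hq', hD⟩ := hgood (W x.1 (sq x.1) x.2) q.1.2.1
        q.1.2.2 (f x.1) l q.1.1 hk1 hfdq ((hp.lt _ hxE).trans_le hpl) hlq
      refine ⟨⟨(g2, p', q'), q.2.1.trans hg2, (hp'.mono q.2.1).trans q.2.2.1,
        (hq'.mono q.2.1).trans q.2.2.2⟩, x', β', hg2, hp', hq', ?_⟩
      intro y hy _ _
      have hyx : y = x := hnr (hy.trans hxn.symm)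
      subst hyx
      exact ⟨hx', hD⟩
    · exact ⟨q, fun _ => false, false, le_rfl, Ag.refl _ _, Ag.refl _ _,
        fun x h1 h2 h3 => absurd ⟨x, h1, h2, h3⟩ hx⟩
  choose nx2 gg bb k1 k2 k3 k4 using key2
  let sr : ℕ → N2 := fun n =>
    Nat.rec ⟨(g1, v1, w1), le_rfl, Ag.refl _ _, Ag.refl _ _⟩ (fun n q => nx2 n q) n
  have hmono2 : ∀ m n, m ≤ n → (sr m).1.1 ≤ (sr n).1.1 ∧
      Ag (sr m).1.1 (sr n).1.2.1 (sr m).1.2.1 ∧ Ag (sr m).1.1 (sr n).1.2.2 (sr m).1.2.2 := by
    intro m n hmn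
    induction hmn with
    | refl => exact ⟨le_rfl, Ag.refl _ _, Ag.refl _ _⟩
    | step _ ih =>
      rename_i n' _
      exact ⟨ih.1.trans (k1 n' (sr n')), Ag.trans (Ag.mono ih.1 (k2 n' (sr n'))) ih.2.1,
        Ag.trans (Ag.mono ih.1 (k3 n' (sr n'))) ih.2.2⟩
  obtain ⟨g3, hg3⟩ := hI (range (fun n => (sr n).1.1)) (countable_range _)
  have hg3' : ∀ n, (sr n).1.1 < g3 := fun n => hg3 _ ⟨n, rfl⟩
  let v2 : I → Bool := fun j => if h : ∃ n, j < (sr n).1.1 then (sr h.choose).1.2.1 j else false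
  let w2 : I → Bool := fun j => if h : ∃ n, j < (sr n).1.1 then (sr h.choose).1.2.2 j else false
  have hv2 : ∀ n, Ag (sr n).1.1 v2 (sr n).1.2.1 := by
    intro n j hj
    have hh : ∃ n, j < (sr n).1.1 := ⟨n, hj⟩
    have e1 : v2 j = (sr hh.choose).1.2.1 j := dif_pos hh
    rw [e1]
    rcases le_total hh.choose n with h | h
    · exact ((hmono2 _ _ h).2.1 j hh.choose_spec).symm
    · exact (hmono2 _ _ h).2.1 j hj
  have hw2 : ∀ n, Ag (sr n).1.1 w2 (sr n).1.2.2 := by
    intro n j hj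
    have hh : ∃ n, j < (sr n).1.1 := ⟨n, hj⟩
    have e1 : w2 j = (sr hh.choose).1.2.2 j := dif_pos hh
    rw [e1]
    rcases le_total hh.choose n with h | h
    · exact ((hmono2 _ _ h).2.2 j hh.choose_spec).symm
    · exact (hmono2 _ _ h).2.2 j hj
  have hv21 : Ag g1 v2 v1 := hv2 0
  have hw21 : Ag g1 w2 w1 := hw2 0
  have hlg3 : l < g3 := hlg1.trans_le (hg3' 0).le
  have hfd2' : FD v2 w2 l := FD.congr hv21 hw21 hlg1 hfd1
  have hg1r : ∀ n, g1 ≤ (sr n).1.1 := fun n => (sr n).2.1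
  have hg : ∀ k ∈ p.E, ∃ g : I → Bool, Ag p.lv g (p.a k) ∧ D (!b) g3 g v2 w2 := by
    intro k hk
    obtain ⟨n, rfl⟩ := hf hk
    have hln : (nx n (sq n)).1.1 ≤ l := ((hβ' (n + 1)).le.trans hβl)
    have hnew : ∀ m, W n (sq n) m ∉ S → Ag p.lv (W n (sq n) m) (p.a (f n)) :=
      fun m hm => (h3 n (sq n) m).resolve_left hm
    let r : ι n (sq n) → ℕ := fun m => nr ⟨n, m⟩
    have hdec : ∀ m, W n (sq n) m ∉ S → Ag (sr (r m)).1.1 (gg (r m) (sr (r m))) (W n (sq n) m) ∧
        D (bb (r m) (sr (r m))) (sr (r m + 1)).1.1 (gg (r m) (sr (r m))) (sr (r m + 1)).1.2.1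
          (sr (r m + 1)).1.2.2 := fun m hm => k4 (r m) (sr (r m)) ⟨n, m⟩ rfl hk (hnew m hm)
    obtain ⟨m, hm⟩ := h4 n (sq n) hk g3 l hln hlg3
      (fun m => if h : W n (sq n) m ∈ S then W' ⟨n, m, h⟩ else gg (r m) (sr (r m))) v2 w2
      (by
        intro m
        by_cases h : W n (sq n) m ∈ S
        · simp only [dif_pos h]
          exact Ag.mono (hβ' (n + 1)).le (hW' ⟨n, m, h⟩)
        · simp only [dif_neg h]
          exact (hdec m h).1.mono ((hln.trans hlg1.le).trans (hg1r _)))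
      (Ag.trans (Ag.mono (hβ' (n + 1)).le ((hv21.mono (hβl.trans hlg1.le)).trans hv1))
        (hvω (n + 1))) hfd2'
    by_cases h : W n (sq n) m ∈ S
    · simp only [dif_pos h] at hm
      exact absurd (hmD _ _ _ _ _ _ _ _ _ (hg3' 0).le (Ag.refl _ _) hv21 hw21
        (hone1 ⟨n, m, h⟩)) hm
    · simp only [dif_neg h] at hm
      obtain ⟨e1, e2⟩ := hdec m h
      have e3 : D (bb (r m) (sr (r m))) g3 (gg (r m) (sr (r m))) v2 w2 :=
        hmD _ _ _ _ _ _ _ _ _ (hg3' (r m + 1)).le (Ag.refl _ _) (hv2 (r m + 1))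
          (hw2 (r m + 1)) e2
      refine ⟨gg (r m) (sr (r m)), (e1.mono ?_).trans (hnew m h), ?_⟩
      · exact (hpl.trans hlg1.le).trans (hg1r _)
      · cases hb : bb (r m) (sr (r m)) with
        | false =>
          rw [hb] at e3
          cases b with
          | false => exact absurd e3 hm
          | true => exact e3
        | true =>
          rw [hb] at e3
          cases b with
          | false => exact e3
          | true => exact absurd e3 hm
  choose! g hga hgb using hg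
  have hg13 : g1 ≤ g3 := (hg3' 0).le
  have hlE : l ∉ p.E := fun h => absurd (hp.lt l h) hpl.not_gt
  have hv2p : Ag p.lv v2 p.v :=
    (hv21.mono (hpl.trans hlg1.le)).trans ((hv1.mono (hβ' 0).le).trans hpv)
  have hfd2 : FD w2 v2 l := FD.congr hw21 hv21 hlg1 hfd1.symm
  refine ⟨⟨g3, insert l p.E, fun k => if k = l then w2 else g k, v2⟩, l, ?_, hpl, hlg3, rfl, ?_,
    hv2p⟩
  · constructor
    · exact hp.le.trans (hpl.trans hlg3.le)
    · exact (hv2p.mono hp.le).trans hp.ag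
    · exact hp.cnt.insert l
    · rintro k (rfl | hk)
      · exact hlg3
      · exact (hp.lt k hk).trans_le (hpl.trans hlg3.le)
    · rintro k (rfl | hk)
      · simp only [if_true]
        exact hfd2
      · have hkl : k ≠ l := fun h => hlE (h ▸ hk)
        simp only [if_neg hkl]
        exact FD.congr (hga k hk) hv2p (hp.lt k hk) (hp.fd k hk)
    · rintro k (rfl | hk)
      · simp only [if_true]
        exact hbd.mono hg13 hw21 hv21
      · have hkl : k ≠ l := fun h => hlE (h ▸ hk)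
        simp only [if_neg hkl]
        exact (hp.bd k hk).mono (hpl.trans hlg3.le) (hga k hk) hv2p
    · rintro k (rfl | hk) l' (rfl | hl') hkl'
      · exact absurd hkl' (lt_irrefl _)
      · exact absurd (hkl'.trans (hp.lt l' hl')) hpl.not_gt
      · have hkl : k ≠ l' := hkl'.ne
        simp only [if_neg hkl, if_true]
        exact hgb k hk
      · have hkl : k ≠ l := fun h => hlE (h ▸ hk)
        have hll : l' ≠ l := fun h => hlE (h ▸ hl')
        simp only [if_neg hkl, if_neg hll]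
        exact hmD _ _ _ _ _ _ _ _ _ (hpl.trans hlg3.le) (hga k hk) hv2p (hga l' hl')
          (hp.col k hk l' hl' hkl')
  · intro k hk
    have hkl : k ≠ l := fun h => hlE (h ▸ hk)
    simp only [if_neg hkl]
    exact hga k hk

theorem comb [Nonempty I] (hI : ∀ D : Set I, D.Countable → ∃ m, ∀ c ∈ D, c < m)
    (hmD : MonoD D) (hsym : ∀ b g x p q, D b g x p q → D b g x q p)
    (hgood : ∀ x p q k l g, FD x p k → FD p q l → k < l → l < g → ∃ g' x' p' q' b, g ≤ g' ∧
      Ag g x' x ∧ Ag g p' p ∧ Ag g q' q ∧ D b g' x' p' q')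
    {al : I} {S : Set (I → Bool)} {v0 : I → Bool}
    (hdense : ∀ β, al ≤ β → ∀ (ι : Type) (_ : Countable ι) (W : ι → I → Bool),
      (∀ n, W n ∈ S) → ∀ v' : I → Bool, Ag al v' v0 → ∃ g l, β ≤ l ∧ l < g ∧
        ∃ (W' : ι → I → Bool) (p q : I → Bool), (∀ n, Ag β (W' n) (W n)) ∧ Ag β p v' ∧
          FD p q l ∧ (∀ n, D b g (W' n) p q) ∧ Sp D b S g p q) :
    ∃ (E : Set I) (a : I → I → Bool) (z : I → Bool), ¬ E.Countable ∧ (∀ k ∈ E, FD (a k) z k) ∧
      ∀ k ∈ E, ∀ l ∈ E, k < l → ∃ g, D (!b) g (a k) z (a l) ∧ ∀ m ∈ E, l < m → g ≤ m := by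
  classical
  let Q : Type u := {x : PS I × I // Pre D b al S v0 x.1 ∧ x.2 ∈ x.1.E}
  let R : Q → Q → Prop := fun x y => x.1.1.lv ≤ y.1.2 ∧ x.1.1.E ⊆ y.1.1.E ∧
    (∀ k ∈ x.1.1.E, Ag x.1.1.lv (y.1.1.a k) (x.1.1.a k)) ∧ Ag x.1.1.lv y.1.1.v x.1.1.v
  let M : Set Q := maxChain R
  have hM : IsMaxChain R M := maxChain_spec
  have hcmp : ∀ x ∈ M, ∀ y ∈ M, x ≠ y → R x y ∨ R y x := fun x hx y hy hxy => hM.1 hx hy hxy
  have hlam : ∀ x : Q, x.1.2 < x.1.1.lv := fun x => x.2.1.lt _ x.2.2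
  have hlev : ∀ x y : Q, R x y → x.1.2 < y.1.2 := fun x y h => (hlam x).trans_le h.1
  -- any two members are contained in one of them
  have hjoin : ∀ x ∈ M, ∀ y ∈ M, ∃ w ∈ M, (x.1.1.E ⊆ w.1.1.E ∧ x.1.1.lv ≤ w.1.1.lv ∧
      (∀ k ∈ x.1.1.E, Ag x.1.1.lv (w.1.1.a k) (x.1.1.a k)) ∧ Ag x.1.1.lv w.1.1.v x.1.1.v) ∧
      (y.1.1.E ⊆ w.1.1.E ∧ y.1.1.lv ≤ w.1.1.lv ∧
      (∀ k ∈ y.1.1.E, Ag y.1.1.lv (w.1.1.a k) (y.1.1.a k)) ∧ Ag y.1.1.lv w.1.1.v y.1.1.v) := by
    intro x hx y hy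
    by_cases hxy : x = y
    · subst hxy
      exact ⟨x, hx, ⟨subset_rfl, le_rfl, fun _ _ => Ag.refl _ _, Ag.refl _ _⟩,
        ⟨subset_rfl, le_rfl, fun _ _ => Ag.refl _ _, Ag.refl _ _⟩⟩
    · rcases hcmp x hx y hy hxy with h | h
      · exact ⟨y, hy, ⟨h.2.1, h.1.trans (hlam y).le, h.2.2.1, h.2.2.2⟩,
          ⟨subset_rfl, le_rfl, fun _ _ => Ag.refl _ _, Ag.refl _ _⟩⟩
      · exact ⟨x, hx, ⟨subset_rfl, le_rfl, fun _ _ => Ag.refl _ _, Ag.refl _ _⟩,
          ⟨h.2.1, h.1.trans (hlam x).le, h.2.2.1, h.2.2.2⟩⟩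
  let z : I → Bool := fun j => if h : ∃ x ∈ M, j < x.1.1.lv then h.choose.1.1.v j else v0 j
  have hz : ∀ x ∈ M, Ag x.1.1.lv z x.1.1.v := by
    intro x hx j hj
    have h : ∃ x ∈ M, j < x.1.1.lv := ⟨x, hx, hj⟩
    have e1 : z j = h.choose.1.1.v j := dif_pos h
    rw [e1]
    obtain ⟨w, _, hw1, hw2⟩ := hjoin _ h.choose_spec.1 x hx
    exact (hw1.2.2.2 j h.choose_spec.2).symm.trans (hw2.2.2.2 j hj)
  let a : I → I → Bool := fun k j =>
    if h : ∃ x ∈ M, k ∈ x.1.1.E ∧ j < x.1.1.lv then h.choose.1.1.a k j else false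
  have ha : ∀ x ∈ M, ∀ k ∈ x.1.1.E, Ag x.1.1.lv (a k) (x.1.1.a k) := by
    intro x hx k hk j hj
    have h : ∃ x ∈ M, k ∈ x.1.1.E ∧ j < x.1.1.lv := ⟨x, hx, hk, hj⟩
    have e1 : a k j = h.choose.1.1.a k j := dif_pos h
    rw [e1]
    obtain ⟨w, _, hw1, hw2⟩ := hjoin _ h.choose_spec.1 x hx
    exact (hw1.2.2.1 k h.choose_spec.2.1 j h.choose_spec.2.2).symm.trans (hw2.2.2.1 k hk j hj)
  have hfd : ∀ x ∈ M, ∀ k ∈ x.1.1.E, FD (a k) z k := fun x hx k hk =>
    FD.congr (ha x hx k hk) (hz x hx) (x.2.1.lt k hk) (x.2.1.fd k hk)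
  have hcol : ∀ x ∈ M, ∀ k ∈ x.1.1.E, ∀ l ∈ x.1.1.E, k < l →
      D (!b) x.1.1.lv (a k) z (a l) := fun x hx k hk l hl hkl =>
    hmD _ _ _ _ _ _ _ _ _ le_rfl (ha x hx k hk) (hz x hx) (ha x hx l hl)
      (x.2.1.col k hk l hl hkl)
  refine ⟨(fun x : Q => x.1.2) '' M, a, z, ?_, ?_, ?_⟩
  · intro hE
    have hinj : InjOn (fun x : Q => x.1.2) M := by
      intro x hx y hy hxy
      by_contra hne
      rcases hcmp x hx y hy hne with h | h
      · exact absurd hxy (hlev x y h).ne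
      · exact absurd hxy (hlev y x h).ne'
    have hMc : M.Countable := countable_of_injective_of_countable_image hinj hE
    obtain ⟨β, hβ⟩ := hI (insert al ((fun x : Q => x.1.1.lv) '' M)) ((hMc.image _).insert _)
    have hβ0 : al < β := hβ _ (mem_insert _ _)
    have hβ1 : ∀ x ∈ M, x.1.1.lv < β := fun x hx => hβ _ (mem_insert_of_mem _ ⟨x, hx, rfl⟩)
    let p : PS I := ⟨β, ⋃ x ∈ M, x.1.1.E, a, z⟩
    have hpE : ∀ k ∈ p.E, ∃ x ∈ M, k ∈ x.1.1.E := by
      intro k hk
      have hk' : k ∈ ⋃ x ∈ M, x.1.1.E := hk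
      simp only [mem_iUnion, exists_prop] at hk'
      exact hk'
    have hp : Pre D b al S v0 p := by
      constructor
      · exact hβ0.le
      · intro j hj
        by_cases h : ∃ x ∈ M, j < x.1.1.lv
        · obtain ⟨x, hx, hjx⟩ := h
          exact (hz x hx j hjx).trans (x.2.1.ag j hj)
        · exact dif_neg h
      · exact Countable.biUnion hMc (fun x _ => x.2.1.cnt)
      · intro k hk
        obtain ⟨x, hx, hkx⟩ := hpE k hk
        exact (x.2.1.lt k hkx).trans (hβ1 x hx)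
      · intro k hk
        obtain ⟨x, hx, hkx⟩ := hpE k hk
        exact hfd x hx k hkx
      · intro k hk
        obtain ⟨x, hx, hkx⟩ := hpE k hk
        exact (x.2.1.bd k hkx).mono (hβ1 x hx).le (ha x hx k hkx) (hz x hx)
      · intro k hk l hl hkl
        obtain ⟨x, hx, hkx⟩ := hpE k hk
        obtain ⟨y, hy, hly⟩ := hpE l hl
        obtain ⟨w, hw, hw1, hw2⟩ := hjoin x hx y hy
        exact hmD _ _ _ _ _ _ _ _ _ (hβ1 w hw).le (Ag.refl _ _)
          (Ag.refl _ _) (Ag.refl _ _) (hcol w hw k (hw1.1 hkx) l (hw2.1 hly) hkl)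
    obtain ⟨q, l, hq, hpl, hlq, hqE, hqa, hqv⟩ := comb_step hI hmD hsym hgood hdense p hp
    have hlq' : l ∈ q.E := by
      rw [hqE]
      exact mem_insert _ _
    let x0 : Q := ⟨(q, l), hq, hlq'⟩
    have hR : ∀ x ∈ M, R x x0 := by
      intro x hx
      have hsub : x.1.1.E ⊆ p.E := fun k hk => mem_biUnion hx hk
      refine ⟨(hβ1 x hx).le.trans hpl, ?_, ?_, ?_⟩
      · intro k hk
        change k ∈ q.E
        rw [hqE]
        exact mem_insert_of_mem _ (hsub hk)
      · intro k hk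
        exact Ag.trans (Ag.mono (hβ1 x hx).le (hqa k (hsub hk))) (ha x hx k hk)
      · exact Ag.trans (Ag.mono (hβ1 x hx).le hqv) (hz x hx)
    have hch : IsChain R (insert x0 M) := by
      apply hM.1.insert
      intro x hx _
      right
      exact hR x hx
    have hMe := hM.2 hch (subset_insert _ _)
    have hx0 : x0 ∈ M := by
      rw [hMe]
      exact mem_insert _ _
    have e1 : q.lv < β := hβ1 x0 hx0
    have e2 : β ≤ l := hpl
    exact absurd (e1.trans_le e2) hlq.not_gt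
  · rintro _ ⟨x, hx, rfl⟩
    exact hfd x hx _ x.2.2
  · rintro _ ⟨x, hx, rfl⟩ _ ⟨y, hy, rfl⟩ hlt
    have hR : ∀ x ∈ M, ∀ y ∈ M, x.1.2 < y.1.2 → R x y := by
      intro x hx y hy hlt
      have hxy : x ≠ y := by
        rintro rfl
        exact lt_irrefl _ hlt
      rcases hcmp x hx y hy hxy with h | h
      · exact h
      · exact absurd hlt (hlev y x h).le.not_gt
    have h := hR x hx y hy hlt
    refine ⟨y.1.1.lv, hcol y hy _ (h.2.1 x.2.2) _ y.2.2 hlt, ?_⟩
    rintro _ ⟨w, hw, rfl⟩ hyw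
    exact (hR y hy w hw hyw).1

end Comb

section Tree

variable {I : Type u} [LinearOrder I]
variable {D : Bool → I → (I → Bool) → (I → Bool) → (I → Bool) → Prop} {b : Bool}

theorem split (hmD : MonoD D)
    (htree : ∀ (al : I) (S : Set (I → Bool)) (v0 : I → Bool), Full D b al S v0 →
      ∃ β, al ≤ β ∧ ∃ (ι : Type) (_ : Countable ι) (W : ι → I → Bool) (v' : I → Bool),
        (∀ n, W n ∈ S) ∧ Ag al v' v0 ∧ ∀ g l, β ≤ l → l < g →
          ∀ (W' : ι → I → Bool) (p q : I → Bool), (∀ n, Ag β (W' n) (W n)) → Ag β p v' →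
          FD p q l → (∀ n, D b g (W' n) p q) → ¬ Sp D b S g p q)
    (al : I) (S : Set (I → Bool)) (v : I → Bool) (hfull : Full D b al S v)
    (κ : Type) [Countable κ] (U : κ → I → Bool) (hU : ∀ n, U n ∈ S) :
    ∃ l be, al ≤ l ∧ l < be ∧ ∃ (U' : κ → I → Bool) (q0 q1 : I → Bool),
      (∀ n, Ag al (U' n) (U n)) ∧ Ag al q0 v ∧ FD q0 q1 l ∧ (∀ n, D b be (U' n) q0 q1) ∧
      Full D b be (S ∪ {f | Ag be f q1}) q0 ∧ Full D b be (S ∪ {f | Ag be f q0}) q1 := by
  classical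
  obtain ⟨β, halβ, ι, hι, W, v', hW, hv', hno⟩ := htree al S v hfull
  obtain ⟨g, l, hβl, hlg, W', p, q, hW', hp, hpq, hone⟩ := hfull β halβ (ι ⊕ κ) inferInstance
    (Sum.elim W U) (by rintro (n | n); exacts [hW n, hU n]) v' hv'
  have hnSp : ¬ Sp D b S g p q := hno g l hβl hlg (fun n => W' (Sum.inl n)) p q
    (fun n => hW' (Sum.inl n)) hp hpq (fun n => hone (Sum.inl n))
  have hstep : ∀ β, g ≤ β → ∀ w v : I → Bool, ((Ag g w p ∧ Ag g v q) ∨ (Ag g w q ∧ Ag g v p)) →
      ∃ β', β ≤ β' ∧ ∃ w1 v1 : I → Bool, Ag β w1 w ∧ Ag β v1 v ∧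
        Full D b β' (S ∪ {f | Ag β' f w1}) v1 := by
    intro β hgβ w v hwv
    by_contra hcon
    apply hnSp
    refine ⟨β, hgβ, w, v, hwv, ?_⟩
    intro β' hββ' w1 v1 hw1 hv1 hF
    exact hcon ⟨β', hββ', w1, v1, hw1, hv1, hF⟩
  obtain ⟨β4, h4, w4, v4, hw4, hv4, hF4⟩ := hstep g le_rfl q p
    (Or.inr ⟨Ag.refl _ _, Ag.refl _ _⟩)
  obtain ⟨β5, h45, w5, v5, hw5, hv5, hF5⟩ := hstep β4 h4 v4 w4 (Or.inl ⟨hv4, hw4⟩)
  have hw5p : Ag g w5 p := (hw5.mono h4).trans hv4
  have hv5q : Ag g v5 q := (hv5.mono h4).trans hw4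
  refine ⟨l, β5, halβ.trans hβl, hlg.trans_le (h4.trans h45), fun n => W' (Sum.inr n), w5, v5,
    fun n => Ag.mono halβ (hW' (Sum.inr n)), ?_, FD.congr hw5p hv5q hlg hpq,
    fun n => hmD _ _ _ _ _ _ _ _ _ (h4.trans h45) (Ag.refl _ _) hw5p hv5q (hone (Sum.inr n)),
    ?_, hF5⟩
  · intro j hj
    rw [hw5p j (hj.trans_le (halβ.trans (hβl.trans hlg.le))), hp j (hj.trans_le halβ)]
    exact hv' j hj
  · refine hF4.mono h45 ?_ hw5
    intro f hf
    rcases hf with hf | hf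
    · left; exact hf
    · right
      exact Ag.trans (Ag.mono h45 hf) hv5

/-- The front after `n` splittings: nodes with the labels `n, …, 2 n`. -/
def Inv (D : Bool → I → (I → Bool) → (I → Bool) → (I → Bool) → Prop) (b : Bool) (n : ℕ) (al : I)
    (U : ℕ → I → Bool) : Prop :=
  ∀ j, n ≤ j → j ≤ 2 * n →
    Full D b al {f | ∃ i, n ≤ i ∧ i ≤ 2 * n ∧ i ≠ j ∧ Ag al f (U i)} (U j)

theorem front_step (hmD : MonoD D)
    (htree : ∀ (al : I) (S : Set (I → Bool)) (v0 : I → Bool), Full D b al S v0 →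
      ∃ β, al ≤ β ∧ ∃ (ι : Type) (_ : Countable ι) (W : ι → I → Bool) (v' : I → Bool),
        (∀ n, W n ∈ S) ∧ Ag al v' v0 ∧ ∀ g l, β ≤ l → l < g →
          ∀ (W' : ι → I → Bool) (p q : I → Bool), (∀ n, Ag β (W' n) (W n)) → Ag β p v' →
          FD p q l → (∀ n, D b g (W' n) p q) → ¬ Sp D b S g p q)
    (n : ℕ) (al : I) (U : ℕ → I → Bool) (hfull : Inv D b n al U) :
    ∃ (be : I) (V : ℕ → I → Bool) (l : I), Inv D b (n + 1) be V ∧ al ≤ l ∧ l < be ∧
      Ag al (V (2 * n + 1)) (U n) ∧ FD (V (2 * n + 1)) (V (2 * n + 2)) l ∧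
      ∀ i, n + 1 ≤ i → i ≤ 2 * n → Ag al (V i) (U i) ∧
        D b be (V i) (V (2 * n + 1)) (V (2 * n + 2)) := by
  classical
  obtain ⟨l, β, hall, hlβ, U', q0, q1, hU', hq0, hq, hone, hF0, hF1⟩ :=
    split hmD htree al _ (U n) (hfull n le_rfl (by omega)) {i : ℕ // n + 1 ≤ i ∧ i ≤ 2 * n}
      (fun i => U i.1) (fun i => ⟨i.1, by have := i.2.1; omega, i.2.2, by
        have := i.2.1; omega, Ag.refl _ _⟩)
  let V : ℕ → I → Bool := fun i =>
    if h : n + 1 ≤ i ∧ i ≤ 2 * n then U' ⟨i, h⟩ else if i = 2 * n + 1 then q0 else q1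
  have hV : ∀ i, (h : n + 1 ≤ i ∧ i ≤ 2 * n) → V i = U' ⟨i, h⟩ := fun i h => dif_pos h
  have hV0 : V (2 * n + 1) = q0 := by
    have : ¬ (n + 1 ≤ 2 * n + 1 ∧ 2 * n + 1 ≤ 2 * n) := by omega
    change (if h : n + 1 ≤ 2 * n + 1 ∧ 2 * n + 1 ≤ 2 * n then U' ⟨2 * n + 1, h⟩ else
      if 2 * n + 1 = 2 * n + 1 then q0 else q1) = q0
    rw [dif_neg this, if_pos rfl]
  have hV1 : V (2 * n + 2) = q1 := by
    have : ¬ (n + 1 ≤ 2 * n + 2 ∧ 2 * n + 2 ≤ 2 * n) := by omega
    change (if h : n + 1 ≤ 2 * n + 2 ∧ 2 * n + 2 ≤ 2 * n then U' ⟨2 * n + 2, h⟩ else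
      if 2 * n + 2 = 2 * n + 1 then q0 else q1) = q1
    rw [dif_neg this, if_neg (by omega)]
  have hVag : ∀ i, n + 1 ≤ i → i ≤ 2 * n → Ag al (V i) (U i) := by
    intro i h1 h2
    rw [hV i ⟨h1, h2⟩]
    exact hU' ⟨i, h1, h2⟩
  have hq1U : Ag al q1 (U n) := by
    intro j hj
    rw [← hq.2 j (hj.trans_le hall)]
    exact hq0 j hj
  have halβ : al ≤ β := hall.trans hlβ.le
  refine ⟨β, V, l, ?_, hall, hlβ, ?_, ?_, ?_⟩
  · intro j hj1 hj2
    rcases lt_or_ge (2 * n) j with hj | hj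
    · rcases (show j = 2 * n + 1 ∨ j = 2 * n + 2 by omega) with rfl | rfl
      · rw [hV0]
        refine hF0.mono le_rfl ?_ (Ag.refl _ _)
        rintro f ⟨i, hi1, hi2, hij, hf⟩
        rcases lt_or_ge (2 * n) i with hi | hi
        · right
          have : i = 2 * n + 2 := by omega
          subst this
          rw [hV1] at hf
          exact hf
        · left
          exact ⟨i, by omega, hi, by omega, (Ag.mono halβ hf).trans (hVag i hi1 hi)⟩
      · rw [hV1]
        refine hF1.mono le_rfl ?_ (Ag.refl _ _)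
        rintro f ⟨i, hi1, hi2, hij, hf⟩
        rcases lt_or_ge (2 * n) i with hi | hi
        · right
          have : i = 2 * n + 1 := by omega
          subst this
          rw [hV0] at hf
          exact hf
        · left
          exact ⟨i, by omega, hi, by omega, (Ag.mono halβ hf).trans (hVag i hi1 hi)⟩
    · refine (hfull j (by omega) hj).mono halβ ?_ (hVag j hj1 hj)
      rintro f ⟨i, hi1, hi2, hij, hf⟩
      rcases lt_or_ge (2 * n) i with hi | hi
      · refine ⟨n, le_rfl, by omega, by omega, ?_⟩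
        rcases (show i = 2 * n + 1 ∨ i = 2 * n + 2 by omega) with rfl | rfl
        · rw [hV0] at hf
          exact (Ag.mono halβ hf).trans hq0
        · rw [hV1] at hf
          exact (Ag.mono halβ hf).trans hq1U
      · exact ⟨i, by omega, hi, hij, (Ag.mono halβ hf).trans (hVag i hi1 hi)⟩
  · rw [hV0]; exact hq0
  · rw [hV0, hV1]; exact hq
  · intro i h1 h2
    refine ⟨hVag i h1 h2, ?_⟩
    rw [hV i ⟨h1, h2⟩, hV0, hV1]
    exact hone ⟨i, h1, h2⟩

/-- The label of the node on the branch `x` after `n` splittings and the number of turns. -/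
def lab (x : ℕ → Bool) : ℕ → ℕ × ℕ
  | 0 => (0, 0)
  | n + 1 => if (lab x n).1 = n then (2 * n + (if x (lab x n).2 then 2 else 1), (lab x n).2 + 1)
      else lab x n

theorem lab_pos {x : ℕ → Bool} {n : ℕ} (h : (lab x n).1 = n) :
    lab x (n + 1) = (2 * n + (if x (lab x n).2 then 2 else 1), (lab x n).2 + 1) := by
  simp only [lab]
  rw [if_pos h]

theorem lab_neg {x : ℕ → Bool} {n : ℕ} (h : (lab x n).1 ≠ n) : lab x (n + 1) = lab x n := by
  simp only [lab]
  rw [if_neg h]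

theorem lab_range (x : ℕ → Bool) (n : ℕ) : n ≤ (lab x n).1 ∧ (lab x n).1 ≤ 2 * n := by
  induction n with
  | zero => exact ⟨le_rfl, le_rfl⟩
  | succ n ih =>
    by_cases h : (lab x n).1 = n
    · rw [lab_pos h]
      constructor
      · change n + 1 ≤ 2 * n + (if x (lab x n).2 then 2 else 1)
        split_ifs <;> omega
      · change 2 * n + (if x (lab x n).2 then 2 else 1) ≤ 2 * (n + 1)
        split_ifs <;> omega
    · rw [lab_neg h]
      omega

theorem lab_stay (x : ℕ → Bool) (n d : ℕ) : (lab x n).1 = n + d → lab x (n + d) = lab x n := by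
  induction d generalizing n with
  | zero => intro _; rfl
  | succ d ih =>
    intro h
    have hne : (lab x n).1 ≠ n := by omega
    have h1 := lab_neg hne
    have h2 := ih (n + 1) (by rw [h1, h]; omega)
    rw [show n + (d + 1) = n + 1 + d by omega, h2, h1]

theorem lab_reach {x y : ℕ → Bool} (d : ℕ) (h : ∀ i < d, x i = y i) :
    ∃ n, lab x n = (n, d) ∧ lab y n = (n, d) := by
  induction d with
  | zero => exact ⟨0, rfl, rfl⟩
  | succ d ih =>
    obtain ⟨n, h1, h2⟩ := ih (fun i hi => h i (hi.trans (Nat.lt_succ_self d)))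
    have hxy : x d = y d := h d (Nat.lt_succ_self d)
    have e1 : lab x (n + 1) = (2 * n + (if x d then 2 else 1), d + 1) := by
      rw [lab_pos (by rw [h1]), h1]
    have e2 : lab y (n + 1) = (2 * n + (if x d then 2 else 1), d + 1) := by
      rw [lab_pos (by rw [h2]), h2, hxy]
    obtain ⟨c, hc⟩ : ∃ c, 2 * n + (if x d then 2 else 1) = n + 1 + c := by
      refine ⟨2 * n + (if x d then 2 else 1) - (n + 1), ?_⟩
      split_ifs <;> omega
    rw [hc] at e1 e2
    refine ⟨n + 1 + c, ?_, ?_⟩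
    · rw [lab_stay x (n + 1) c (by rw [e1]), e1]
    · rw [lab_stay y (n + 1) c (by rw [e2]), e2]

theorem tree [Nonempty I] (hI : ∀ D : Set I, D.Countable → ∃ m, ∀ c ∈ D, c < m)
    (hmD : MonoD D) (hsym : ∀ b g x p q, D b g x p q → D b g x q p)
    (htree : ∀ (al : I) (S : Set (I → Bool)) (v0 : I → Bool), Full D b al S v0 →
      ∃ β, al ≤ β ∧ ∃ (ι : Type) (_ : Countable ι) (W : ι → I → Bool) (v' : I → Bool),
        (∀ n, W n ∈ S) ∧ Ag al v' v0 ∧ ∀ g l, β ≤ l → l < g →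
          ∀ (W' : ι → I → Bool) (p q : I → Bool), (∀ n, Ag β (W' n) (W n)) → Ag β p v' →
          FD p q l → (∀ n, D b g (W' n) p q) → ¬ Sp D b S g p q) :
    ∃ br : (ℕ → Bool) → I → Bool, Injective br ∧ ∀ x y w k l, FD (br x) (br y) k →
      FD (br y) (br w) l → k < l → ∃ g, D b g (br x) (br y) (br w) := by
  classical
  let St : ℕ → Type u := fun n => {x : I × (ℕ → I → Bool) // Inv D b n x.1 x.2}
  have key : ∀ (n : ℕ) (st : St n), ∃ (st' : St (n + 1)) (l : I),
      st.1.1 ≤ l ∧ l < st'.1.1 ∧ Ag st.1.1 (st'.1.2 (2 * n + 1)) (st.1.2 n) ∧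
      FD (st'.1.2 (2 * n + 1)) (st'.1.2 (2 * n + 2)) l ∧
      ∀ i, n + 1 ≤ i → i ≤ 2 * n → Ag st.1.1 (st'.1.2 i) (st.1.2 i) ∧
        D b st'.1.1 (st'.1.2 i) (st'.1.2 (2 * n + 1)) (st'.1.2 (2 * n + 2)) := by
    intro n st
    obtain ⟨be, V, l, h1, h2, h3, h4, h5, h6⟩ := front_step hmD htree n st.1.1 st.1.2 st.2
    exact ⟨⟨(be, V), h1⟩, l, h2, h3, h4, h5, h6⟩
  choose nx lv h1 h2 h3 h4 h5 using key
  obtain ⟨m0⟩ := (inferInstance : Nonempty I)
  have hinit : Inv D b 0 m0 (fun _ _ => false) := by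
    intro j hj1 hj2 β hle ι hι W hW v' hv'
    obtain ⟨g, hg⟩ := hI {β} (countable_singleton _)
    refine ⟨g, β, le_rfl, hg β rfl, W, v', Function.update v' β (!(v' β)), fun _ => Ag.refl _ _,
      Ag.refl _ _, ⟨?_, ?_⟩, fun n => ?_⟩
    · simp
    · intro j hj
      exact (Function.update_of_ne hj.ne _ _).symm
    · obtain ⟨i, hi1, hi2, hi3, _⟩ := hW n
      exact absurd (show i = j by omega) hi3
  let st : (n : ℕ) → St n := fun n =>
    Nat.rec (motive := St) ⟨(m0, fun _ _ => false), hinit⟩ (fun n q => nx n q) n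
  let al : ℕ → I := fun n => (st n).1.1
  let U : ℕ → ℕ → I → Bool := fun n => (st n).1.2
  let l : ℕ → I := fun n => lv n (st n)
  have g1 : ∀ n, al n ≤ l n := fun n => h1 n (st n)
  have g2 : ∀ n, l n < al (n + 1) := fun n => h2 n (st n)
  have g3 : ∀ n, Ag (al n) (U (n + 1) (2 * n + 1)) (U n n) := fun n => h3 n (st n)
  have g4 : ∀ n, FD (U (n + 1) (2 * n + 1)) (U (n + 1) (2 * n + 2)) (l n) :=
    fun n => h4 n (st n)
  have g5 : ∀ n i, n + 1 ≤ i → i ≤ 2 * n → Ag (al n) (U (n + 1) i) (U n i) ∧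
      D b (al (n + 1)) (U (n + 1) i) (U (n + 1) (2 * n + 1)) (U (n + 1) (2 * n + 2)) :=
    fun n i => h5 n (st n) i
  let nd : (ℕ → Bool) → ℕ → I → Bool := fun x n => U n (lab x n).1
  -- behaviour at a splitting
  have hsplit : ∀ x n d, lab x n = (n, d) →
      nd x (n + 1) = if x d then U (n + 1) (2 * n + 2) else U (n + 1) (2 * n + 1) := by
    intro x n d h
    have e1 : lab x (n + 1) = (2 * n + (if x d then 2 else 1), d + 1) := by
      rw [lab_pos (by rw [h]), h]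
    cases hx : x d with
    | false =>
      have e2 : (lab x (n + 1)).1 = 2 * n + 1 := by rw [e1, hx]; simp
      change U (n + 1) (lab x (n + 1)).1 = _
      rw [e2]
      simp
    | true =>
      have e2 : (lab x (n + 1)).1 = 2 * n + 2 := by rw [e1, hx]; simp
      change U (n + 1) (lab x (n + 1)).1 = _
      rw [e2]
      simp
  have hbelow : ∀ x n d, lab x n = (n, d) → Ag (l n) (nd x (n + 1)) (U (n + 1) (2 * n + 1)) := by
    intro x n d h
    rw [hsplit x n d h]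
    cases x d with
    | false => exact Ag.refl _ _
    | true => exact (fun j hj => ((g4 n).2 j hj).symm)
  have hcoh : ∀ x n, Ag (al n) (nd x (n + 1)) (nd x n) := by
    intro x n
    by_cases h : (lab x n).1 = n
    · have h' : lab x n = (n, (lab x n).2) := Prod.ext h rfl
      have e2 : nd x n = U n n := by
        change U n (lab x n).1 = U n n
        rw [h]
      rw [e2]
      exact ((hbelow x n _ h').mono (g1 n)).trans (g3 n)
    · have hr := lab_range x n
      have e1 : nd x (n + 1) = U (n + 1) (lab x n).1 := by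
        change U (n + 1) (lab x (n + 1)).1 = _
        rw [lab_neg h]
      rw [e1]
      exact (g5 n _ (by omega) hr.2).1
  have hmono : ∀ x m n, m ≤ n → al m ≤ al n ∧ Ag (al m) (nd x n) (nd x m) := by
    intro x m n hmn
    induction hmn with
    | refl => exact ⟨le_rfl, Ag.refl _ _⟩
    | step _ ih =>
      rename_i n' _
      exact ⟨ih.1.trans ((g1 n').trans (g2 n').le), Ag.trans (Ag.mono ih.1 (hcoh x n')) ih.2⟩
  let br : (ℕ → Bool) → I → Bool := fun x j =>
    if h : ∃ n, j < al n then nd x h.choose j else false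
  have hbr : ∀ x n, Ag (al n) (br x) (nd x n) := by
    intro x n j hj
    have hh : ∃ n, j < al n := ⟨n, hj⟩
    have e1 : br x j = nd x hh.choose j := dif_pos hh
    rw [e1]
    rcases le_total hh.choose n with h | h
    · exact ((hmono x _ _ h).2 j hh.choose_spec).symm
    · exact (hmono x _ _ h).2 j hj
  have hfd : ∀ x y n d, lab x n = (n, d) → lab y n = (n, d) → x d ≠ y d →
      FD (br x) (br y) (l n) := by
    intro x y n d hx hy hne
    have e1 := hsplit x n d hx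
    have e2 := hsplit y n d hy
    cases hxd : x d with
    | false =>
      have hyd : y d = true := by
        cases h : y d with
        | false => exact absurd (hxd.trans h.symm) hne
        | true => rfl
      rw [hxd] at e1
      rw [hyd] at e2
      simp only [Bool.false_eq_true, if_false, if_true] at e1 e2
      refine FD.congr (hbr x (n + 1)) (hbr y (n + 1)) (g2 n) ?_
      rw [e1, e2]
      exact g4 n
    | true =>
      have hyd : y d = false := by
        cases h : y d with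
        | false => rfl
        | true => exact absurd (hxd.trans h.symm) hne
      rw [hxd] at e1
      rw [hyd] at e2
      simp only [Bool.false_eq_true, if_false, if_true] at e1 e2
      refine FD.congr (hbr x (n + 1)) (hbr y (n + 1)) (g2 n) ?_
      rw [e1, e2]
      exact (g4 n).symm
  refine ⟨br, ?_, ?_⟩
  · intro x y hxy
    by_contra hne
    obtain ⟨d, hd1, hd2⟩ := exists_first_diff hne
    obtain ⟨n, hn1, hn2⟩ := lab_reach d hd1
    exact (hfd x y n d hn1 hn2 hd2).1 (by rw [hxy])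
  · intro x y w k l' hk hl hkl
    have hyw : y ≠ w := by
      rintro rfl
      exact hl.1 rfl
    obtain ⟨d, hd1, hd2⟩ := exists_first_diff hyw
    obtain ⟨n, hn1, hn2⟩ := lab_reach d hd1
    have hln : l' = l n := FD.unique hl (hfd y w n d hn1 hn2 hd2)
    subst hln
    have hxn : (lab x n).1 ≠ n := by
      intro h
      have h' : lab x n = (n, (lab x n).2) := Prod.ext h rfl
      have e1 := ((hbr x (n + 1)).mono (g2 n).le).trans (hbelow x n _ h')
      have e2 := ((hbr y (n + 1)).mono (g2 n).le).trans (hbelow y n _ hn1)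
      exact hk.1 ((e1 k hkl).trans (e2 k hkl).symm)
    have hr := lab_range x n
    have e3 : nd x (n + 1) = U (n + 1) (lab x n).1 := by
      change U (n + 1) (lab x (n + 1)).1 = _
      rw [lab_neg hxn]
    have e4 := (g5 n (lab x n).1 (by omega) hr.2).2
    have e5 : Ag (al (n + 1)) (br x) (U (n + 1) (lab x n).1) := by
      rw [← e3]
      exact hbr x (n + 1)
    have ey := hsplit y n d hn1
    have ew := hsplit w n d hn2
    have by1 := hbr y (n + 1)
    have bw1 := hbr w (n + 1)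
    cases hyd : y d with
    | false =>
      have hwd : w d = true := by
        cases h : w d with
        | false => exact absurd (hyd.trans h.symm) hd2
        | true => rfl
      rw [hyd] at ey
      rw [hwd] at ew
      simp only [Bool.false_eq_true, if_false, if_true] at ey ew
      rw [ey] at by1
      rw [ew] at bw1
      exact ⟨_, hmD _ _ _ _ _ _ _ _ _ le_rfl e5 by1 bw1 e4⟩
    | true =>
      have hwd : w d = false := by
        cases h : w d with
        | false => rfl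
        | true => exact absurd (hyd.trans h.symm) hd2
      rw [hyd] at ey
      rw [hwd] at ew
      simp only [Bool.false_eq_true, if_false, if_true] at ey ew
      rw [ey] at by1
      rw [ew] at bw1
      exact ⟨_, hmD _ _ _ _ _ _ _ _ _ le_rfl e5 by1 bw1 (hsym _ _ _ _ _ e4)⟩

end Tree

section Main

variable {I : Type u} [LinearOrder I]

/-- An uncountable set whose distinguished triples are all decided in the same way. -/
theorem exists_uncountable [Nonempty I] (hI : ∀ D : Set I, D.Countable → ∃ m, ∀ c ∈ D, c < m)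
    {S : Type u} (e : S ≃ (I → Bool))
    (D : Bool → I → (I → Bool) → (I → Bool) → (I → Bool) → Prop)
    (hmD : MonoD D) (hsym : ∀ b g x p q, D b g x p q → D b g x q p)
    (hgood : ∀ x p q k l g, FD x p k → FD p q l → k < l → l < g → ∃ g' x' p' q' b, g ≤ g' ∧
      Ag g x' x ∧ Ag g p' p ∧ Ag g q' q ∧ D b g' x' p' q') :
    ∃ (B : Set S) (b : Bool), ¬ B.Countable ∧ ∀ x ∈ B, ∀ y ∈ B, ∀ w ∈ B, ∀ k l,
      FD (e x) (e y) k → FD (e y) (e w) l → k < l → ∃ g, D b g (e x) (e y) (e w) := by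
  classical
  by_cases htree : ∀ (al : I) (S : Set (I → Bool)) (v0 : I → Bool), Full D true al S v0 →
      ∃ β, al ≤ β ∧ ∃ (ι : Type) (_ : Countable ι) (W : ι → I → Bool) (v' : I → Bool),
        (∀ n, W n ∈ S) ∧ Ag al v' v0 ∧ ∀ g l, β ≤ l → l < g →
          ∀ (W' : ι → I → Bool) (p q : I → Bool), (∀ n, Ag β (W' n) (W n)) → Ag β p v' →
          FD p q l → (∀ n, D true g (W' n) p q) → ¬ Sp D true S g p q
  · obtain ⟨br, hinj0, hcol⟩ := tree hI hmD hsym htree
    have hinj : Injective (fun x : ℕ → Bool => e.symm (br x)) :=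
      fun x y hxy => hinj0 (e.symm.injective hxy)
    refine ⟨range (fun x : ℕ → Bool => e.symm (br x)), true, ?_, ?_⟩
    · intro hc
      apply uncountable_seq
      rw [← image_univ] at hc
      have := countable_of_injective_of_countable_image hinj.injOn hc
      exact Set.countable_univ_iff.mp this
    · rintro _ ⟨u, rfl⟩ _ ⟨v, rfl⟩ _ ⟨q, rfl⟩ k l hk hl hkl
      simp only [Equiv.apply_symm_apply] at hk hl ⊢
      exact hcol u v q k l hk hl hkl
  · push Not at htree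
    obtain ⟨al, R, v0, _, hd⟩ := htree
    obtain ⟨E, a, z, hE, hfd, hcol⟩ := comb (b := true) hI hmD hsym hgood (al := al) (S := R)
      (v0 := v0) (by
      intro β halβ ι hι W hW v' hv'
      obtain ⟨g, l, hβl, hlg, W', p, q, h1, h2, h3, h4, h5⟩ := hd β halβ ι hι W v' hW hv'
      exact ⟨g, l, hβl, hlg, W', p, q, h1, h2, h3, h4, h5⟩)
    have ha3 : ∀ d ∈ E, ∀ d' ∈ E, d < d' → FD (a d) (a d') d := by
      intro d hd d' hd' h
      have e1 := hfd d hd
      have e2 := hfd d' hd'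
      exact FD.congr (a := d') (Ag.refl _ _) (fun j hj => e2.2 j hj) h e1
    have hne : ∀ d ∈ E, ∀ d' ∈ E, a d = a d' → d = d' := by
      intro d hd d' hd' hdd
      rcases lt_trichotomy d d' with h | h | h
      · exact absurd (by rw [hdd]) (ha3 d hd d' hd' h).1
      · exact h
      · exact absurd (by rw [hdd]) (ha3 d' hd' d hd h).1
    have hinj : InjOn (fun d : I => e.symm (a d)) E :=
      fun d hd d' hd' hdd => hne d hd d' hd' (e.symm.injective hdd)
    refine ⟨(fun d : I => e.symm (a d)) '' E, false, ?_, ?_⟩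
    · intro hc
      exact hE (countable_of_injective_of_countable_image hinj hc)
    · rintro _ ⟨d, hd, rfl⟩ _ ⟨d', hd', rfl⟩ _ ⟨d'', hd'', rfl⟩ k l hk hl hkl
      simp only [Equiv.apply_symm_apply] at hk hl ⊢
      -- the branch leaving at `l` and a branch leaving later
      have key : ∀ l ∈ E, ∀ m ∈ E, l < m → k < l → k = d →
          ∃ g, D false g (a d) (a m) (a l) := by
        intro l hlE m hmE hlm hkl hkd
        obtain ⟨g, hg, hgm⟩ := hcol d hd l hlE (hkd ▸ hkl)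
        have hmz : Ag g (a m) z := fun j hj => (hfd m hmE).2 j (hj.trans_le (hgm m hmE hlm))
        exact ⟨g, hmD _ _ _ _ _ _ _ _ _ le_rfl (Ag.refl _ _) hmz (Ag.refl _ _) hg⟩
      rcases lt_trichotomy d' d'' with h | h | h
      · have hl' : l = d' := FD.unique hl (ha3 d' hd' d'' hd'' h)
        rcases lt_trichotomy d d' with h' | h' | h'
        · have hk' : k = d := FD.unique hk (ha3 d hd d' hd' h')
          obtain ⟨g, hg⟩ := key d' hd' d'' hd'' h (hl' ▸ hkl) hk'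
          exact ⟨g, hsym _ _ _ _ _ hg⟩
        · exact absurd (by rw [h']) hk.1
        · have hk' : k = d' := FD.unique hk (ha3 d' hd' d hd h').symm
          exact absurd (hk'.trans hl'.symm) hkl.ne
      · exact absurd (by rw [h]) hl.1
      · have hl' : l = d'' := FD.unique hl (ha3 d'' hd'' d' hd' h).symm
        rcases lt_trichotomy d d' with h' | h' | h'
        · have hk' : k = d := FD.unique hk (ha3 d hd d' hd' h')
          exact key d'' hd'' d' hd' h (hl' ▸ hkl) hk'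
        · exact absurd (by rw [h']) hk.1
        · have hk' : k = d' := FD.unique hk (ha3 d' hd' d hd h').symm
          exfalso
          rw [hk', hl'] at hkl
          exact absurd hkl h.not_gt

/-- Countably many dense requirements can be met together. -/
theorem meet_all (hI : ∀ D : Set I, D.Countable → ∃ m, ∀ c ∈ D, c < m)
    (R : ℕ → I → (I → Bool) → (I → Bool) → (I → Bool) → Prop)
    (hmono : ∀ n g g' x x' p p' q q', g ≤ g' → Ag g x' x → Ag g p' p → Ag g q' q →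
      R n g x p q → R n g' x' p' q')
    (hdense : ∀ n g x p q, ∃ g' x' p' q', g ≤ g' ∧ Ag g x' x ∧ Ag g p' p ∧ Ag g q' q ∧
      R n g' x' p' q')
    (g : I) (x p q : I → Bool) : ∃ g' x' p' q', g ≤ g' ∧ Ag g x' x ∧ Ag g p' p ∧ Ag g q' q ∧
      ∀ n, R n g' x' p' q' := by
  classical
  choose fg fx fp fq h1 h2 h3 h4 h5 using hdense
  let N : Type u := I × (I → Bool) × (I → Bool) × (I → Bool)
  let nx : ℕ → N → N := fun n a => (fg n a.1 a.2.1 a.2.2.1 a.2.2.2, fx n a.1 a.2.1 a.2.2.1 a.2.2.2,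
    fp n a.1 a.2.1 a.2.2.1 a.2.2.2, fq n a.1 a.2.1 a.2.2.1 a.2.2.2)
  let sq : ℕ → N := fun n => Nat.rec (g, x, p, q) (fun n a => nx n a) n
  have hsq : ∀ n, sq (n + 1) = nx n (sq n) := fun n => rfl
  have hm : ∀ m n, m ≤ n → (sq m).1 ≤ (sq n).1 ∧ Ag (sq m).1 (sq n).2.1 (sq m).2.1 ∧
      Ag (sq m).1 (sq n).2.2.1 (sq m).2.2.1 ∧ Ag (sq m).1 (sq n).2.2.2 (sq m).2.2.2 := by
    intro m n hmn
    induction hmn with
    | refl => exact ⟨le_rfl, Ag.refl _ _, Ag.refl _ _, Ag.refl _ _⟩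
    | step _ ih =>
      rename_i n' _
      exact ⟨ih.1.trans (h1 n' _ _ _ _), Ag.trans (Ag.mono ih.1 (h2 n' _ _ _ _)) ih.2.1,
        Ag.trans (Ag.mono ih.1 (h3 n' _ _ _ _)) ih.2.2.1,
        Ag.trans (Ag.mono ih.1 (h4 n' _ _ _ _)) ih.2.2.2⟩
  obtain ⟨g1, hg1⟩ := hI (range (fun n => (sq n).1)) (countable_range _)
  have hg1' : ∀ n, (sq n).1 < g1 := fun n => hg1 _ ⟨n, rfl⟩
  have lim : ∀ pr : N → I → Bool, (∀ m n, m ≤ n → Ag (sq m).1 (pr (sq n)) (pr (sq m))) →
      ∃ y : I → Bool, ∀ n, Ag (sq n).1 y (pr (sq n)) := by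
    intro pr hpr
    refine ⟨fun j => if h : ∃ n, j < (sq n).1 then pr (sq h.choose) j else false, ?_⟩
    intro n j hj
    have hh : ∃ n, j < (sq n).1 := ⟨n, hj⟩
    change (if h : ∃ n, j < (sq n).1 then pr (sq h.choose) j else false) = _
    rw [dif_pos hh]
    rcases le_total hh.choose n with h | h
    · exact (hpr _ _ h j hh.choose_spec).symm
    · exact hpr _ _ h j hj
  obtain ⟨x1, hx1⟩ := lim (fun a => a.2.1) (fun m n h => (hm m n h).2.1)
  obtain ⟨p1, hp1⟩ := lim (fun a => a.2.2.1) (fun m n h => (hm m n h).2.2.1)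
  obtain ⟨q1, hq1⟩ := lim (fun a => a.2.2.2) (fun m n h => (hm m n h).2.2.2)
  refine ⟨g1, x1, p1, q1, (hg1' 0).le, hx1 0, hp1 0, hq1 0, fun n => ?_⟩
  exact hmono n _ _ _ _ _ _ _ _ (hg1' (n + 1)).le (hx1 (n + 1)) (hp1 (n + 1)) (hq1 (n + 1))
    (h5 n _ _ _ _)

/-- The triple `x', y', w'` of sequences agrees with `x, y, w` below `g`. -/
def Above (g : I) (x y w x' y' w' : I → Bool) : Prop :=
  ∀ j < g, x' j = x j ∧ y' j = y j ∧ w' j = w j

/-- No partition with the Baire property has infinite homogeneous sets of both classes in every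
set of size `ℵ₁`. -/
theorem main [WellFoundedLT I] (hI : ∀ D : Set I, D.Countable → ∃ m, ∀ c ∈ D, c < m)
    {S : Type u} [LinearOrder S] [WellFoundedLT S] (e : S ≃ (I → Bool))
    (c : {t : Finset S // t.card = 3} → Bool)
    (N : ℕ → (I → Bool) → (I → Bool) → (I → Bool) → Prop)
    (hN : ∀ i g x y w, ∃ g' x' y' w', g ≤ g' ∧ Above g x y w x' y' w' ∧
      ∀ x'' y'' w'', Above g' x' y' w' x'' y'' w'' → ¬ N i x'' y'' w'')
    (hc : ∀ g x y w, ∃ g' x' y' w' b, g ≤ g' ∧ Above g x y w x' y' w' ∧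
      ∀ (t : {t : Finset S // t.card = 3}) (u v z : S) (k l : I), (t : Finset S) = {u, v, z} →
        u < v → v < z → FD (e u) (e v) k → FD (e v) (e z) l → k < l → e u k = e v l →
        Above g' x' y' w' (e u) (e v) (e z) → (∀ i, ¬ N i (e u) (e v) (e z)) → c t = b) :
    ∃ A : Set S, #A = ℵ₁ ∧ ∃ i : Bool, ∀ Y ⊆ A, Y.Infinite →
      ∃ t : {t : Finset S // t.card = 3}, (↑(t : Finset S) : Set S) ⊆ Y ∧ c t ≠ i := by
  classical
  obtain ⟨m0, _⟩ := hI ∅ countable_empty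
  have : Nonempty I := ⟨m0⟩
  -- the class `b` is the class of the triple `x, f, g` if this is an increasing triple
  let P : Bool → (I → Bool) → (I → Bool) → (I → Bool) → Prop := fun b x f g =>
    ∀ (t : {t : Finset S // t.card = 3}) (u v z : S) (k l : I), (t : Finset S) = {u, v, z} →
        u < v → v < z → FD (e u) (e v) k → FD (e v) (e z) l → k < l → e u k = e v l →
        e u = x → e v = f → e z = g → c t = b
  let D : Bool → I → (I → Bool) → (I → Bool) → (I → Bool) → Prop := fun b g x p q =>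
    ∀ x' p' q', Ag g x' x → Ag g p' p → Ag g q' q → P b x' p' q' ∧ P b x' q' p'
  have hmD : MonoD D := by
    intro b g g' x x' p p' q q' hg hx hp hq h x1 p1 q1 h1 h2 h3
    exact h x1 p1 q1 ((h1.mono hg).trans hx) ((h2.mono hg).trans hp) ((h3.mono hg).trans hq)
  have hsym : ∀ b g x p q, D b g x p q → D b g x q p := by
    intro b g x p q h x1 p1 q1 h1 h2 h3
    exact (h x1 q1 p1 h1 h3 h2).symm
  -- avoid all the nowhere dense sets
  have hav : ∀ g x p q, ∃ g' x' p' q', g ≤ g' ∧ Ag g x' x ∧ Ag g p' p ∧ Ag g q' q ∧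
      ∀ i, ∀ x'' p'' q'', Ag g' x'' x' → Ag g' p'' p' → Ag g' q'' q' → ¬ N i x'' p'' q'' := by
    intro g x p q
    refine meet_all hI (fun i g' x' p' q' => ∀ x'' p'' q'', Ag g' x'' x' → Ag g' p'' p' →
      Ag g' q'' q' → ¬ N i x'' p'' q'') ?_ ?_ g x p q
    · intro n g g' x x' p p' q q' hg hx hp hq h x1 p1 q1 h1 h2 h3
      exact h x1 p1 q1 ((h1.mono hg).trans hx) ((h2.mono hg).trans hp) ((h3.mono hg).trans hq)
    · intro n g x p q
      obtain ⟨g', x', p', q', hg, hab, h⟩ := hN n g x p q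
      refine ⟨g', x', p', q', hg, fun j hj => (hab j hj).1, fun j hj => (hab j hj).2.1,
        fun j hj => (hab j hj).2.2, ?_⟩
      intro x'' p'' q'' h1 h2 h3
      exact h x'' p'' q'' (fun j hj => ⟨h1 j hj, h2 j hj, h3 j hj⟩)
  -- decide an increasing pair of orders
  have hdec : ∀ g x p q, ∃ g' x' p' q' b, g ≤ g' ∧ Ag g x' x ∧ Ag g p' p ∧ Ag g q' q ∧
      ∀ x'' p'' q'', Ag g' x'' x' → Ag g' p'' p' → Ag g' q'' q' → P b x'' p'' q'' := by
    intro g x p q
    obtain ⟨g1, x1, p1, q1, hg1, hx1, hp1, hq1, hn⟩ := hav g x p q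
    obtain ⟨g2, x2, p2, q2, b, hg2, hab, h⟩ := hc g1 x1 p1 q1
    have hx2 : Ag g1 x2 x1 := fun j hj => (hab j hj).1
    have hp2 : Ag g1 p2 p1 := fun j hj => (hab j hj).2.1
    have hq2 : Ag g1 q2 q1 := fun j hj => (hab j hj).2.2
    refine ⟨g2, x2, p2, q2, b, hg1.trans hg2, (hx2.mono hg1).trans hx1,
      (hp2.mono hg1).trans hp1, (hq2.mono hg1).trans hq1, ?_⟩
    intro x'' p'' q'' h1 h2 h3 t u v z k l ht huv hvz hk hl hkl hkl' hu hv hz
    subst hu
    subst hv
    subst hz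
    exact h t u v z k l ht huv hvz hk hl hkl hkl' (fun j hj => ⟨h1 j hj, h2 j hj, h3 j hj⟩)
      (fun i => hn i _ _ _ ((h1.mono hg2).trans hx2) ((h2.mono hg2).trans hp2)
        ((h3.mono hg2).trans hq2))
  have hgood : ∀ x p q k l g, FD x p k → FD p q l → k < l → l < g → ∃ g' x' p' q' b, g ≤ g' ∧
      Ag g x' x ∧ Ag g p' p ∧ Ag g q' q ∧ D b g' x' p' q' := by
    intro x p q k l g hk hl hkl hlg
    have hkq : FD x q k := by
      refine ⟨?_, fun j hj => ?_⟩
      · rw [← hl.2 k hkl]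
        exact hk.1
      · rw [← hl.2 j (hj.trans hkl)]
        exact hk.2 j hj
    by_cases hxp : x k = p l
    · obtain ⟨g', x', p', q', b, hg, hx, hp, hq, h⟩ := hdec g x p q
      refine ⟨g', x', p', q', b, hg, hx, hp, hq, ?_⟩
      intro x1 p1 q1 h1 h2 h3
      refine ⟨h x1 p1 q1 h1 h2 h3, ?_⟩
      intro t u v z k1 l1 _ _ _ hk1 hl1 _ hkl1 hu hv hz
      exfalso
      subst hu
      subst hv
      subst hz
      have hx1 : Ag g (e u) x := (h1.mono hg).trans hx
      have hp1 : Ag g (e z) p := (h2.mono hg).trans hp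
      have hq1 : Ag g (e v) q := (h3.mono hg).trans hq
      have ek : k1 = k := FD.unique hk1 (FD.congr hx1 hq1 (hkl.trans hlg) hkq)
      have el : l1 = l := FD.unique hl1 (FD.congr hq1 hp1 hlg hl.symm)
      rw [ek, el, hx1 k (hkl.trans hlg), hq1 l hlg] at hkl1
      exact hl.1 (hxp.symm.trans hkl1)
    · have hxq : x k = q l := by
        have h1 := hl.1
        revert hxp h1
        cases x k <;> cases p l <;> cases q l <;> simp
      obtain ⟨g', x', q', p', b, hg, hx, hq, hp, h⟩ := hdec g x q p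
      refine ⟨g', x', p', q', b, hg, hx, hp, hq, ?_⟩
      intro x1 p1 q1 h1 h2 h3
      refine ⟨?_, h x1 q1 p1 h1 h3 h2⟩
      intro t u v z k1 l1 _ _ _ hk1 hl1 _ hkl1 hu hv hz
      exfalso
      subst hu
      subst hv
      subst hz
      have hx1 : Ag g (e u) x := (h1.mono hg).trans hx
      have hp1 : Ag g (e v) p := (h2.mono hg).trans hp
      have hq1 : Ag g (e z) q := (h3.mono hg).trans hq
      have ek : k1 = k := FD.unique hk1 (FD.congr hx1 hp1 (hkl.trans hlg) hk)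
      have el : l1 = l := FD.unique hl1 (FD.congr hp1 hq1 hlg hl)
      rw [ek, el, hx1 k (hkl.trans hlg), hp1 l hlg] at hkl1
      exact hxp hkl1
  obtain ⟨B, b, hB, hcol⟩ := exists_uncountable hI e D hmD hsym hgood
  have h1 : ℵ₁ ≤ #B := by
    rw [← Cardinal.succ_aleph0]
    apply Order.succ_le_of_lt
    rw [← not_le]
    intro h
    exact hB (Cardinal.le_aleph0_iff_set_countable.mp h)
  obtain ⟨A, hAB, hA⟩ := Cardinal.le_mk_iff_exists_subset.mp h1
  refine ⟨A, hA, !b, fun Y hYA hY => ?_⟩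
  obtain ⟨x, hx, y, hy, w, hw, hxy, hyw, k, l, hkl, hk, hl, hxyk⟩ :=
    exists_triple e e.injective Y hY
  have hcard : ({x, y, w} : Finset S).card = 3 := by
    rw [Finset.card_eq_three]
    exact ⟨x, y, w, hxy.ne, (hxy.trans hyw).ne, hyw.ne, rfl⟩
  refine ⟨⟨{x, y, w}, hcard⟩, ?_, ?_⟩
  · intro a ha
    simp only [Finset.coe_insert, Finset.coe_singleton, Set.mem_insert_iff,
      Set.mem_singleton_iff] at ha
    rcases ha with rfl | rfl | rfl
    · exact hx
    · exact hy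
    · exact hw
  · obtain ⟨g, hg⟩ := hcol x (hAB (hYA hx)) y (hAB (hYA hy)) w (hAB (hYA hw)) k l hk hl hkl
    have h2 := (hg (e x) (e y) (e w) (Ag.refl _ _) (Ag.refl _ _) (Ag.refl _ _)).1
      ⟨{x, y, w}, hcard⟩ x y w k l rfl hxy hyw hk hl hkl hxyk rfl rfl rfl
    rw [h2]
    cases b <;> simp

end Main

end Pool.Agent.Lib.MP_dc3585_lc.Baire
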