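import Mathlib

/-!
Two-colourings of the triples of a set of size `2 ^ (2 ^ ℵ₀)` such that every subset of size `ℵ₁`
contains, for every finite `n`, an `n`-element homogeneous set of either class.
-/

open Cardinal Set Function

namespace Pool.Agent.Lib.MP_dc3585_lc

universe u

section General

/-- Every uncountable subset of a well-ordered set has an uncountable subset all of whose
initial segments are countable. -/
theorem exists_thin {α : Type*} [LinearOrder α] [WellFoundedLT α] (A : Set α)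
    (hA : ¬ A.Countable) :
    ∃ B ⊆ A, ¬ B.Countable ∧ ∀ x ∈ B, {y ∈ B | y ≤ x}.Countable := by
  classical
  let B : Set α := {x ∈ A | {y ∈ A | y ≤ x}.Countable}
  have hseg : ∀ x ∈ B, {y ∈ B | y ≤ x}.Countable := by
    intro x hx
    have hsub : {y ∈ B | y ≤ x} ⊆ {y ∈ A | y ≤ x} := fun y hy => ⟨hy.1.1, hy.2⟩
    exact hx.2.mono hsub
  refine ⟨B, fun x hx => hx.1, ?_, hseg⟩
  by_cases h : (A \ B).Nonempty
  · obtain ⟨x₀, hx₀, hmin⟩ := WellFounded.has_min (wellFounded_lt (α := α)) (A \ B) h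
    have hunc : ¬ {y ∈ A | y ≤ x₀}.Countable := fun hc => hx₀.2 ⟨hx₀.1, hc⟩
    intro hB
    apply hunc
    have hsub : {y ∈ A | y ≤ x₀} ⊆ B ∪ {x₀} := by
      intro y hy
      rcases hy with ⟨hyA, hyx⟩
      rcases hyx.lt_or_eq with hlt | heq
      · left
        by_contra hyB
        exact hmin y ⟨hyA, hyB⟩ hlt
      · right; exact heq
    exact (hB.union (countable_singleton x₀)).mono hsub
  · have : A ⊆ B := by
      intro x hx
      by_contra hxB
      exact h ⟨x, hx, hxB⟩
    intro hB
    exact hA (hB.mono this)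

/-- The elements of a set with only countably many elements of larger real value. -/
theorem countable_bad {α : Type*} (r : α → ℝ) (hr : Injective r) (B : Set α) :
    {x ∈ B | {y ∈ B | r x < r y}.Countable}.Countable := by
  classical
  set U : Set α := {x ∈ B | {y ∈ B | r x < r y}.Countable} with hU
  have hsub : U ⊆ {x ∈ U | ∀ y ∈ U, ¬ r y < r x} ∪
      ⋃ q ∈ {q : ℚ | {y ∈ B | (q : ℝ) < r y}.Countable}, {y ∈ B | (q : ℝ) < r y} := by
    intro x hx
    by_cases h : ∀ y ∈ U, ¬ r y < r x
    · left; exact ⟨hx, h⟩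
    · right
      push Not at h
      obtain ⟨y, hy, hyx⟩ := h
      obtain ⟨q, hq1, hq2⟩ := exists_rat_btwn hyx
      have hsub : {z ∈ B | (q : ℝ) < r z} ⊆ {z ∈ B | r y < r z} :=
        fun z hz => ⟨hz.1, hq1.trans hz.2⟩
      simp only [mem_ofPred_eq, mem_iUnion, exists_prop]
      exact ⟨q, hy.2.mono hsub, hx.1, hq2⟩
  refine Countable.mono hsub (Countable.union ?_ ?_)
  · apply Set.Subsingleton.countable
    intro x hx y hy
    apply hr
    exact le_antisymm (not_lt.mp (hx.2 y hy.1)) (not_lt.mp (hy.2 x hx.1))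
  · apply Countable.biUnion (Set.to_countable _)
    intro q hq
    exact hq

/-- A simultaneous version of Sierpinski's observation. -/
theorem sierpinski {I S : Type*} [LinearOrder I] [LinearOrder S]
    (r : I → ℝ) (hr : Injective r) (g : I → S) (n : ℕ) :
    ∀ K : Set I, ¬ K.Countable → (∀ k ∈ K, {l ∈ K | l ≤ k}.Countable) →
      (∀ k ∈ K, {l ∈ K | g l ≤ g k}.Countable) →
      ∃ Y : Finset I, (↑Y : Set I) ⊆ K ∧ Y.card = n ∧
        ∀ k ∈ Y, ∀ l ∈ Y, k < l → (g k < g l ∧ r k < r l) := by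
  classical
  induction n with
  | zero =>
    intro K _ _ _
    exact ⟨∅, by simp, by simp, by simp⟩
  | succ n ih =>
    intro K hK h1 h2
    have hbad := countable_bad r hr K
    have hex : ∃ k ∈ K, ¬ {y ∈ K | r k < r y}.Countable := by
      by_contra hcon
      push Not at hcon
      apply hK
      refine hbad.mono ?_
      intro x hx
      exact ⟨hx, hcon x hx⟩
    obtain ⟨k, hk, hku⟩ := hex
    let K' : Set I := {y ∈ K | r k < r y ∧ k < y ∧ g k < g y}
    have hK'sub : K' ⊆ K := fun y hy => hy.1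
    have hK' : ¬ K'.Countable := by
      intro hc
      apply hku
      have hsub : {y ∈ K | r k < r y} ⊆
          K' ∪ ({l ∈ K | l ≤ k} ∪ {l ∈ K | g l ≤ g k}) := by
        intro y hy
        by_cases hy1 : k < y
        · by_cases hy2 : g k < g y
          · left; exact ⟨hy.1, hy.2, hy1, hy2⟩
          · right; right; exact ⟨hy.1, not_lt.mp hy2⟩
        · right; left; exact ⟨hy.1, not_lt.mp hy1⟩
      exact (hc.union ((h1 k hk).union (h2 k hk))).mono hsub
    have h1' : ∀ k ∈ K', {l ∈ K' | l ≤ k}.Countable := by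
      intro l hl
      have hsub : {y ∈ K' | y ≤ l} ⊆ {y ∈ K | y ≤ l} := fun y hy => ⟨hK'sub hy.1, hy.2⟩
      exact (h1 l (hK'sub hl)).mono hsub
    have h2' : ∀ k ∈ K', {l ∈ K' | g l ≤ g k}.Countable := by
      intro l hl
      have hsub : {y ∈ K' | g y ≤ g l} ⊆ {y ∈ K | g y ≤ g l} :=
        fun y hy => ⟨hK'sub hy.1, hy.2⟩
      exact (h2 l (hK'sub hl)).mono hsub
    obtain ⟨Y, hYK, hYn, hY⟩ := ih K' hK' h1' h2'
    have hkY : k ∉ Y := by
      intro h
      exact lt_irrefl _ (hYK h).2.2.1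
    refine ⟨insert k Y, ?_, ?_, ?_⟩
    · intro y hy
      rw [Finset.coe_insert, Set.mem_insert_iff] at hy
      rcases hy with rfl | hy
      · exact hk
      · exact hK'sub (hYK hy)
    · rw [Finset.card_insert_of_notMem hkY, hYn]
    · intro a ha b hb hab
      rw [Finset.mem_insert] at ha hb
      rcases ha with rfl | ha
      · rcases hb with rfl | hb
        · exact absurd hab (lt_irrefl _)
        · have := hYK hb
          exact ⟨this.2.2.2, this.2.1⟩
      · rcases hb with rfl | hb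
        · have := (hYK ha).2.2.1
          exact absurd (hab.trans this) (lt_irrefl _)
        · exact hY a ha b hb hab

end General

section Tree

variable {I : Type*} [LinearOrder I]

/-- `k` is the first place where the two sequences differ. -/
def FD (x y : I → Bool) (k : I) : Prop := x k ≠ y k ∧ ∀ j < k, x j = y j

theorem FD.unique {x y : I → Bool} {k l : I} (hk : FD x y k) (hl : FD x y l) : k = l := by
  rcases lt_trichotomy k l with h | h | h
  · exact absurd (hl.2 k h) hk.1
  · exact h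
  · exact absurd (hk.2 l h) hl.1

theorem exists_FD [WellFoundedLT I] {x y : I → Bool} (h : x ≠ y) : ∃ k, FD x y k := by
  have hne : {k | x k ≠ y k}.Nonempty := Function.ne_iff.mp h
  obtain ⟨k, hk, hmin⟩ := WellFounded.has_min (wellFounded_lt (α := I)) _ hne
  refine ⟨k, hk, ?_⟩
  intro j hj
  by_contra hcon
  exact hmin j hcon hj

/-- The colour of a triple listed in increasing order. -/
def Col (r : I → ℝ) (x y z : I → Bool) : Prop :=
  (∃ k l, FD x y k ∧ FD y z l ∧ k < l ∧ r k < r l) ∨
  (∃ k l, FD x y k ∧ FD y z l ∧ l < k ∧ z l = true)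

/-- The perfect-tree case. -/
theorem comb {S : Type*} [LinearOrder S] [WellFoundedLT I] (e : S → I → Bool) (he : Injective e)
    (A : Set S) (hseg : ∀ x ∈ A, {y ∈ A | y ≤ x}.Countable)
    (H : ∀ B ⊆ A, ¬ B.Countable → ∃ k, ∃ y ∈ B, ∃ z ∈ B, e y k = false ∧ e z k = true ∧
      (∀ j < k, e y j = e z j) ∧ ¬ {x ∈ B | ∀ j ≤ k, e x j = e y j}.Countable ∧
      ¬ {x ∈ B | ∀ j ≤ k, e x j = e z j}.Countable) (b : Bool) (n : ℕ) :
    ∀ B ⊆ A, ¬ B.Countable → ∃ Y : Finset S, (↑Y : Set S) ⊆ B ∧ Y.card = n ∧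
      ∀ x ∈ Y, ∀ y ∈ Y, ∀ z ∈ Y, x < y → y < z →
        ∃ k l, FD (e x) (e y) k ∧ FD (e y) (e z) l ∧ l < k ∧ e z l = b := by
  classical
  induction n with
  | zero =>
    intro B _ _
    exact ⟨∅, by simp, by simp, by simp⟩
  | succ n ih =>
    intro B hBA hB
    obtain ⟨k, y, hyB, z, hzB, hyk, hzk, hyz, hyu, hzu⟩ := H B hBA hB
    -- `p` is the witness on side `b`, `q` the witness on the other side
    obtain ⟨p, q, hpk, hqk, hpq, hpu, hqu⟩ : ∃ p q : S, e p k = b ∧ e q k = !b ∧
        (∀ j < k, e q j = e p j) ∧ ¬ {x ∈ B | ∀ j ≤ k, e x j = e p j}.Countable ∧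
        ¬ {x ∈ B | ∀ j ≤ k, e x j = e q j}.Countable := by
      cases b with
      | false =>
        exact ⟨y, z, hyk, by simpa using hzk, fun j hj => (hyz j hj).symm, hyu, hzu⟩
      | true =>
        exact ⟨z, y, hzk, by simpa using hyk, fun j hj => hyz j hj, hzu, hyu⟩
    obtain ⟨Y, hYB, hYn, hY⟩ := ih {x ∈ B | ∀ j ≤ k, e x j = e q j}
      (fun x hx => hBA hx.1) hqu
    -- pick a large element on side `b`
    have hlow : (⋃ x ∈ (↑Y : Set S), {w ∈ A | w ≤ x}).Countable := by
      apply Countable.biUnion (Finset.countable_toSet Y)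
      intro x hx
      exact hseg x (hBA (hYB hx).1)
    obtain ⟨w, hw, hwY⟩ : ∃ w ∈ {x ∈ B | ∀ j ≤ k, e x j = e p j}, ∀ x ∈ Y, x < w := by
      by_contra hcon
      push Not at hcon
      apply hpu
      refine hlow.mono ?_
      intro w hw
      obtain ⟨x, hx, hxw⟩ := hcon w hw
      simp only [mem_iUnion, exists_prop]
      exact ⟨x, hx, hBA hw.1, hxw⟩
    have hwnot : w ∉ Y := fun h => lt_irrefl _ (hwY w h)
    refine ⟨insert w Y, ?_, ?_, ?_⟩
    · intro x hx
      rw [Finset.coe_insert, Set.mem_insert_iff] at hx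
      rcases hx with rfl | hx
      · exact hw.1
      · exact (hYB hx).1
    · rw [Finset.card_insert_of_notMem hwnot, hYn]
    · intro x₁ h₁ x₂ h₂ x₃ h₃ h12 h23
      rw [Finset.mem_insert] at h₁ h₂ h₃
      -- only the last may be `w`
      have hx₂ : x₂ ∈ Y := by
        rcases h₂ with rfl | h₂
        · rcases h₃ with rfl | h₃
          · exact absurd h23 (lt_irrefl _)
          · exact absurd (h23.trans (hwY x₃ h₃)) (lt_irrefl _)
        · exact h₂
      have hx₁ : x₁ ∈ Y := by
        rcases h₁ with rfl | h₁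
        · exact absurd (h12.trans (hwY x₂ hx₂)) (lt_irrefl _)
        · exact h₁
      rcases h₃ with rfl | h₃
      · have hne : e x₁ ≠ e x₂ := fun h => absurd (he h) (ne_of_lt h12)
        obtain ⟨m, hm⟩ := exists_FD hne
        have h1 := (hYB hx₁).2
        have h2 := (hYB hx₂).2
        have hkm : k < m := by
          by_contra hcon
          push Not at hcon
          exact hm.1 ((h1 m hcon).trans (h2 m hcon).symm)
        refine ⟨m, k, hm, ⟨?_, ?_⟩, hkm, ?_⟩
        · rw [h2 k le_rfl, hw.2 k le_rfl, hpk, hqk]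
          cases b <;> simp
        · intro j hj
          rw [h2 j hj.le, hw.2 j hj.le, hpq j hj]
        · rw [hw.2 k le_rfl, hpk]
      · exact hY x₁ hx₁ x₂ hx₂ x₃ h₃ h12 h23

/-- The non-splitting case: a long chain. -/
theorem chain {S : Type*} [WellFoundedLT I] (e : S → I → Bool) (he : Injective e)
    (B : Set S) (hB : ¬ B.Countable)
    (H : ¬ ∃ k, ∃ y ∈ B, ∃ z ∈ B, e y k = false ∧ e z k = true ∧
      (∀ j < k, e y j = e z j) ∧ ¬ {x ∈ B | ∀ j ≤ k, e x j = e y j}.Countable ∧
      ¬ {x ∈ B | ∀ j ≤ k, e x j = e z j}.Countable) :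
    ∃ (K : Set I) (g : I → S), ¬ K.Countable ∧ (∀ k ∈ K, g k ∈ B) ∧
      ∀ k ∈ K, ∀ l ∈ K, k < l → FD (e (g k)) (e (g l)) k := by
  classical
  -- big points
  let W : I → S → Prop := fun k y => y ∈ B ∧ ¬ {x ∈ B | ∀ j ≤ k, e x j = e y j}.Countable
  have hWdown : ∀ k y, W k y → ∀ j ≤ k, W j y := by
    intro k y hy j hj
    have hsub : {x ∈ B | ∀ i ≤ k, e x i = e y i} ⊆ {x ∈ B | ∀ i ≤ j, e x i = e y i} :=
      fun x hx => ⟨hx.1, fun i hi => hx.2 i (hi.trans hj)⟩
    exact ⟨hy.1, fun hc => hy.2 (hc.mono hsub)⟩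
  have hWuniq : ∀ k y z, W k y → W k z → ∀ j ≤ k, e y j = e z j := by
    intro k y z hy hz j hj
    by_contra hne
    have hne' : e y ≠ e z := fun h => hne (congrFun h j)
    obtain ⟨m, hm⟩ := exists_FD hne'
    have hmj : m ≤ j := by
      by_contra hcon
      push Not at hcon
      exact hne (hm.2 j hcon)
    have hy' := hWdown k y hy m (hmj.trans hj)
    have hz' := hWdown k z hz m (hmj.trans hj)
    apply H
    cases hym : e y m with
    | false =>
      have hzm : e z m = true := by
        have := hm.1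
        rw [hym] at this
        cases hzz : e z m with
        | false => exact absurd hzz.symm this
        | true => rfl
      exact ⟨m, y, hy'.1, z, hz'.1, hym, hzm, hm.2, hy'.2, hz'.2⟩
    | true =>
      have hzm : e z m = false := by
        have := hm.1
        rw [hym] at this
        cases hzz : e z m with
        | false => rfl
        | true => exact absurd hzz.symm this
      exact ⟨m, z, hz'.1, y, hy'.1, hzm, hym, fun j hj => (hm.2 j hj).symm, hz'.2, hy'.2⟩
  let P : Set I := {k | ∃ y, W k y}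
  let b : I → Bool := fun k => if h : ∃ y, W k y then e h.choose k else false
  have hb : ∀ k y, W k y → ∀ j ≤ k, b j = e y j := by
    intro k y hy j hj
    have hex : ∃ y, W j y := ⟨y, hWdown k y hy j hj⟩
    have : b j = e hex.choose j := by
      simp only [b, dif_pos hex]
    rw [this]
    exact hWuniq j _ _ hex.choose_spec (hWdown k y hy j hj) j le_rfl
  have hPdown : ∀ k ∈ P, ∀ j ≤ k, j ∈ P := by
    intro k hk j hj
    obtain ⟨y, hy⟩ := hk
    exact ⟨y, hWdown k y hy j hj⟩
  let F : I → Set S := fun k => {x ∈ B | (∀ j < k, e x j = b j) ∧ e x k ≠ b k}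
  have hF : ∀ k, (F k).Countable := by
    intro k
    by_contra hcon
    have hne : (F k).Nonempty := by
      by_contra h
      rw [Set.not_nonempty_iff_eq_empty] at h
      exact hcon (by rw [h]; exact countable_empty)
    obtain ⟨x₀, hx₀⟩ := hne
    have hw : W k x₀ := by
      refine ⟨hx₀.1, fun hc => hcon (hc.mono ?_)⟩
      intro x hx
      refine ⟨hx.1, fun j hj => ?_⟩
      rcases hj.lt_or_eq with h | h
      · rw [hx.2.1 j h, hx₀.2.1 j h]
      · subst h
        have h1 := hx.2.2
        have h2 := hx₀.2.2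
        revert h1 h2
        cases e x j <;> cases e x₀ j <;> cases b j <;> simp
    exact hx₀.2.2 (hb k x₀ hw k le_rfl).symm
  let E : Set S := {x ∈ B | ∀ k ∈ P, e x k = b k}
  have hE : E.Countable := by
    by_cases hP : P = Set.univ
    · apply Set.Subsingleton.countable
      intro x hx y hy
      apply he
      funext k
      rw [hx.2 k (by rw [hP]; trivial), hy.2 k (by rw [hP]; trivial)]
    · by_contra hcon
      have hne : (Pᶜ).Nonempty := by
        rw [Set.nonempty_compl]; exact hP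
      obtain ⟨k, hk, hmin⟩ := WellFounded.has_min (wellFounded_lt (α := I)) _ hne
      have hkmin : ∀ j < k, j ∈ P := by
        intro j hj
        by_contra h
        exact hmin j h hj
      have hsplit : E ⊆ {x ∈ E | e x k = false} ∪ {x ∈ E | e x k = true} := by
        intro x hx
        cases h : e x k with
        | false => left; exact ⟨hx, h⟩
        | true => right; exact ⟨hx, h⟩
      have hone : ∃ v : Bool, ¬ {x ∈ E | e x k = v}.Countable := by
        by_contra h
        push Not at h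
        exact hcon (((h false).union (h true)).mono hsplit)
      obtain ⟨v, hv⟩ := hone
      have hne2 : {x ∈ E | e x k = v}.Nonempty := by
        by_contra h
        rw [Set.not_nonempty_iff_eq_empty] at h
        exact hv (by rw [h]; exact countable_empty)
      obtain ⟨x₀, hx₀⟩ := hne2
      apply hk
      refine ⟨x₀, hx₀.1.1, fun hc => hv (hc.mono ?_)⟩
      intro x hx
      refine ⟨hx.1.1, fun j hj => ?_⟩
      rcases hj.lt_or_eq with h | h
      · rw [hx.1.2 j (hkmin j h), hx₀.1.2 j (hkmin j h)]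
      · rw [h, hx.2, hx₀.2]
  have hcover : B ⊆ E ∪ ⋃ k ∈ {k | k ∈ P ∧ (F k).Nonempty}, F k := by
    intro x hx
    by_cases hxE : x ∈ E
    · left; exact hxE
    · right
      have hne : {k | k ∈ P ∧ e x k ≠ b k}.Nonempty := by
        by_contra h
        apply hxE
        refine ⟨hx, fun k hk => ?_⟩
        by_contra hne
        exact h ⟨k, hk, hne⟩
      obtain ⟨k, hk, hmin⟩ := WellFounded.has_min (wellFounded_lt (α := I)) _ hne
      have hxF : x ∈ F k := by
        refine ⟨hx, fun j hj => ?_, hk.2⟩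
        by_contra h
        exact hmin j ⟨hPdown k hk.1 j hj.le, h⟩ hj
      simp only [mem_ofPred_eq, mem_iUnion, exists_prop]
      exact ⟨k, ⟨hk.1, x, hxF⟩, hxF⟩
  let K : Set I := {k | k ∈ P ∧ (F k).Nonempty}
  have hK : ¬ K.Countable := by
    intro hc
    apply hB
    exact (hE.union (Countable.biUnion hc (fun k _ => hF k))).mono hcover
  have hBne : B.Nonempty := by
    by_contra h
    rw [Set.not_nonempty_iff_eq_empty] at h
    exact hB (by rw [h]; exact countable_empty)
  let g : I → S := fun k => if h : (F k).Nonempty then h.choose else hBne.choose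
  have hg : ∀ k ∈ K, g k ∈ F k := by
    intro k hk
    have : g k = hk.2.choose := by simp only [g, dif_pos hk.2]
    rw [this]
    exact hk.2.choose_spec
  refine ⟨K, g, hK, fun k hk => (hg k hk).1, ?_⟩
  intro k hk l hl hkl
  refine ⟨?_, ?_⟩
  · rw [(hg l hl).2.1 k hkl]
    exact (hg k hk).2.2
  · intro j hj
    rw [(hg k hk).2.1 j hj, (hg l hl).2.1 j (hj.trans hkl)]

/-- The main combinatorial statement, for triples listed in increasing order. -/
theorem main {S : Type*} [LinearOrder S] [WellFoundedLT S] [WellFoundedLT I]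
    (r : I → ℝ) (hr : Injective r) (e : S → I → Bool) (he : Injective e)
    (A₀ : Set S) (hA₀ : ¬ A₀.Countable) (n : ℕ) (i : Bool) :
    ∃ Y : Finset S, (↑Y : Set S) ⊆ A₀ ∧ Y.card = n ∧
      ∀ x ∈ Y, ∀ y ∈ Y, ∀ z ∈ Y, x < y → y < z → (Col r (e x) (e y) (e z) ↔ i = true) := by
  classical
  obtain ⟨A, hAA₀, hA, hseg⟩ := exists_thin A₀ hA₀
  by_cases H : ∀ B ⊆ A, ¬ B.Countable → ∃ k, ∃ y ∈ B, ∃ z ∈ B, e y k = false ∧ e z k = true ∧
      (∀ j < k, e y j = e z j) ∧ ¬ {x ∈ B | ∀ j ≤ k, e x j = e y j}.Countable ∧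
      ¬ {x ∈ B | ∀ j ≤ k, e x j = e z j}.Countable
  · obtain ⟨Y, hYA, hYn, hY⟩ := comb e he A hseg H i n A subset_rfl hA
    refine ⟨Y, hYA.trans hAA₀, hYn, ?_⟩
    intro x hx y hy z hz hxy hyz
    obtain ⟨k, l, hk, hl, hlk, hz⟩ := hY x hx y hy z hz hxy hyz
    constructor
    · rintro (⟨k', l', hk', hl', hlt, _⟩ | ⟨k', l', hk', hl', _, hz'⟩)
      · rw [← hk.unique hk', ← hl.unique hl'] at hlt
        exact absurd (hlt.trans hlk) (lt_irrefl _)
      · rw [← hl.unique hl', hz] at hz'
        exact hz'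
    · intro hi
      right
      exact ⟨k, l, hk, hl, hlk, by rw [hz, hi]⟩
  · push Not at H
    obtain ⟨B, hBA, hB, hns⟩ := H
    obtain ⟨K₀, g, hK₀, hgB, hgFD⟩ := chain e he B hB (by
      rintro ⟨k, y, hy, z, hz, h1, h2, h3, h4, h5⟩
      exact h5 (hns k y hy z hz h1 h2 h3 h4))
    obtain ⟨K, hKK₀, hK, hKseg⟩ := exists_thin K₀ hK₀
    have hginj : ∀ k ∈ K, ∀ l ∈ K, g k = g l → k = l := by
      intro k hk l hl hkl
      rcases lt_trichotomy k l with h | h | h
      · have := (hgFD k (hKK₀ hk) l (hKK₀ hl) h).1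
        rw [hkl] at this
        exact absurd rfl this
      · exact h
      · have := (hgFD l (hKK₀ hl) k (hKK₀ hk) h).1
        rw [hkl] at this
        exact absurd rfl this
    have hKseg2 : ∀ k ∈ K, {l ∈ K | g l ≤ g k}.Countable := by
      intro k hk
      have hc := hseg (g k) (hBA (hgB k (hKK₀ hk)))
      have himg : (g '' {l ∈ K | g l ≤ g k}).Countable := by
        refine hc.mono ?_
        rintro _ ⟨l, hl, rfl⟩
        exact ⟨hBA (hgB l (hKK₀ hl.1)), hl.2⟩
      refine Set.countable_of_injective_of_countable_image ?_ himg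
      intro a ha b hb hab
      exact hginj a ha.1 b hb.1 hab
    -- choose the sign according to the class
    obtain ⟨Y₀, hY₀K, hY₀n, hY₀⟩ : ∃ Y : Finset I, (↑Y : Set I) ⊆ K ∧ Y.card = n ∧
        ∀ k ∈ Y, ∀ l ∈ Y, k < l → (g k < g l ∧ (r k < r l ↔ i = true)) := by
      cases i with
      | true =>
        obtain ⟨Y, h1, h2, h3⟩ := sierpinski r hr g n K hK hKseg hKseg2
        exact ⟨Y, h1, h2, fun k hk l hl hkl => ⟨(h3 k hk l hl hkl).1,
          by simp [(h3 k hk l hl hkl).2]⟩⟩
      | false =>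
        obtain ⟨Y, h1, h2, h3⟩ := sierpinski (fun k => - r k)
          (fun a b hab => hr (neg_injective hab)) g n K hK hKseg hKseg2
        exact ⟨Y, h1, h2, fun k hk l hl hkl => ⟨(h3 k hk l hl hkl).1, by
          have := (h3 k hk l hl hkl).2
          simp only [neg_lt_neg_iff] at this
          simp [this.le]⟩⟩
    have hmono : ∀ k ∈ Y₀, ∀ l ∈ Y₀, g k < g l → k < l := by
      intro k hk l hl hkl
      rcases lt_trichotomy k l with h | h | h
      · exact h
      · rw [h] at hkl; exact absurd hkl (lt_irrefl _)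
      · exact absurd (hkl.trans (hY₀ l hl k hk h).1) (lt_irrefl _)
    refine ⟨Y₀.image g, ?_, ?_, ?_⟩
    · intro x hx
      rw [Finset.coe_image] at hx
      obtain ⟨k, hk, rfl⟩ := hx
      exact hAA₀ (hBA (hgB k (hKK₀ (hY₀K hk))))
    · rw [Finset.card_image_of_injOn, hY₀n]
      intro k hk l hl hkl
      exact hginj k (hY₀K hk) l (hY₀K hl) hkl
    · intro x hx y hy z hz hxy hyz
      rw [Finset.mem_image] at hx hy hz
      obtain ⟨k, hk, rfl⟩ := hx
      obtain ⟨l, hl, rfl⟩ := hy
      obtain ⟨m, hm, rfl⟩ := hz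
      have hkl := hmono k hk l hl hxy
      have hlm := hmono l hl m hm hyz
      have h1 := hgFD k (hKK₀ (hY₀K hk)) l (hKK₀ (hY₀K hl)) hkl
      have h2 := hgFD l (hKK₀ (hY₀K hl)) m (hKK₀ (hY₀K hm)) hlm
      constructor
      · rintro (⟨k', l', hk', hl', _, hr'⟩ | ⟨k', l', hk', hl', hlt, _⟩)
        · rw [← h1.unique hk', ← h2.unique hl'] at hr'
          exact ((hY₀ k hk l hl hkl).2).mp hr'
        · rw [← h1.unique hk', ← h2.unique hl'] at hlt
          exact absurd (hlt.trans hkl) (lt_irrefl _)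
      · intro hi
        left
        exact ⟨k, l, h1, h2, hkl, ((hY₀ k hk l hl hkl).2).mpr hi⟩

end Tree

theorem exists_sorted {S : Type*} [LinearOrder S] (t : Finset S) (ht : t.card = 3) :
    ∃ x y z : S, x < y ∧ y < z ∧ ∀ w, w ∈ t ↔ (w = x ∨ w = y ∨ w = z) := by
  obtain ⟨a, b, c, hab, hac, hbc, rfl⟩ := Finset.card_eq_three.mp ht
  have hmem : ∀ w, w ∈ ({a, b, c} : Finset S) ↔ (w = a ∨ w = b ∨ w = c) := by
    intro w; simp
  rcases lt_or_gt_of_ne hab with h1 | h1 <;> rcases lt_or_gt_of_ne hac with h2 | h2 <;>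
    rcases lt_or_gt_of_ne hbc with h3 | h3
  · exact ⟨a, b, c, h1, h3, fun w => by rw [hmem]⟩
  · exact ⟨a, c, b, h2, h3, fun w => by rw [hmem]; tauto⟩
  · exact absurd (h1.trans (h3.trans h2)) (lt_irrefl _)
  · exact ⟨c, a, b, h2, h1, fun w => by rw [hmem]; tauto⟩
  · exact ⟨b, a, c, h1, h2, fun w => by rw [hmem]; tauto⟩
  · exact absurd (h1.trans (h2.trans h3)) (lt_irrefl _)
  · exact ⟨b, c, a, h3, h2, fun w => by rw [hmem]; tauto⟩
  · exact ⟨c, b, a, h3, h1, fun w => by rw [hmem]; tauto⟩

theorem sorted_unique {S : Type*} [LinearOrder S] {x y z x' y' z' : S}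
    (h1 : x < y) (h2 : y < z) (h1' : x' < y') (h2' : y' < z')
    (h : ∀ w, (w = x ∨ w = y ∨ w = z) ↔ (w = x' ∨ w = y' ∨ w = z')) :
    x = x' ∧ y = y' ∧ z = z' := by
  have hx := (h x).mp (Or.inl rfl)
  have hx' := (h x').mpr (Or.inl rfl)
  have hz := (h z).mp (Or.inr (Or.inr rfl))
  have hz' := (h z').mpr (Or.inr (Or.inr rfl))
  have hy := (h y).mp (Or.inr (Or.inl rfl))
  have exx : x = x' := by
    apply le_antisymm
    · rcases hx' with h | h | h <;> rw [h]
      · exact h1.le
      · exact (h1.trans h2).le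
    · rcases hx with h | h | h <;> rw [h]
      · exact h1'.le
      · exact (h1'.trans h2').le
  have ezz : z = z' := by
    apply le_antisymm
    · rcases hz with h | h | h <;> rw [h]
      · exact (h1'.trans h2').le
      · exact h2'.le
    · rcases hz' with h | h | h <;> rw [h]
      · exact (h1.trans h2).le
      · exact h2.le
  refine ⟨exx, ?_, ezz⟩
  rcases hy with h | h | h
  · rw [h, ← exx] at h1; exact absurd h1 (lt_irrefl _)
  · exact h
  · rw [h, ← ezz] at h2; exact absurd h2 (lt_irrefl _)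

/-- There is a partition of the triples of a set `S` of cardinality `2 ^ (2 ^ ℵ₀)` into two
classes such that every subset of cardinality `ℵ₁` contains, for every finite `n` (in particular
for `n = 4`) and for each of the two classes, an `n`-element set all of whose triples lie in
that class. -/
theorem both_classes {S : Type u} (hS : #S = 2 ^ (2 ^ ℵ₀ : Cardinal.{u})) :
    ∃ c : {t : Finset S // t.card = 3} → Bool,
      ∀ A : Set S, #A = ℵ₁ → ∀ (n : ℕ) (i : Bool),
        ∃ Y : Finset S, (↑Y : Set S) ⊆ A ∧ Y.card = n ∧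
          ∀ t : {t : Finset S // t.card = 3}, (t : Finset S) ⊆ Y → c t = i := by
  classical
  -- well-order `ℝ` (as an index set) and `S`
  obtain ⟨lI, wI⟩ := exists_wellFoundedLT ℝ
  obtain ⟨lS, wS⟩ := exists_wellFoundedLT S
  -- embed `S` into `ℝ → Bool`
  have hcard : Cardinal.lift.{0} #S = Cardinal.lift.{u} #(ℝ → Bool) := by
    rw [hS]
    simp [Cardinal.mk_real, Cardinal.two_power_aleph0]
  obtain ⟨e⟩ := Cardinal.lift_mk_eq'.mp hcard
  have key := fun (A : Set S) (hA : ¬ A.Countable) (n : ℕ) (i : Bool) =>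
    @main ℝ lI S lS wS wI (fun x => x) (fun _ _ h => h) (fun s => e s) e.injective A hA n i
  refine ⟨fun t => decide (∃ x y z : S, lS.lt x y ∧ lS.lt y z ∧
    (∀ w, w ∈ t.1 ↔ (w = x ∨ w = y ∨ w = z)) ∧
    @Col ℝ lI (fun x => x) (e x) (e y) (e z)), ?_⟩
  intro A hA n i
  have hAc : ¬ A.Countable := by
    rw [← Cardinal.le_aleph0_iff_set_countable, hA, not_le]
    exact Cardinal.aleph0_lt_aleph_one
  obtain ⟨Y, hYA, hYn, hY⟩ := key A hAc n i
  refine ⟨Y, hYA, hYn, ?_⟩
  rintro ⟨t, ht⟩ htY
  -- list the triple in increasing order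
  obtain ⟨x, y, z, hxy, hyz, hmem⟩ := @exists_sorted S lS t ht
  have hxY : x ∈ Y := htY ((hmem x).mpr (Or.inl rfl))
  have hyY : y ∈ Y := htY ((hmem y).mpr (Or.inr (Or.inl rfl)))
  have hzY : z ∈ Y := htY ((hmem z).mpr (Or.inr (Or.inr rfl)))
  have hcol := hY x hxY y hyY z hzY hxy hyz
  have hiff : (∃ x y z : S, lS.lt x y ∧ lS.lt y z ∧
      (∀ w, w ∈ t ↔ (w = x ∨ w = y ∨ w = z)) ∧
      @Col ℝ lI (fun x => x) (e x) (e y) (e z)) ↔ i = true := by
    rw [← hcol]
    constructor
    · rintro ⟨x', y', z', h1', h2', hmem', hc⟩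
      obtain ⟨rfl, rfl, rfl⟩ := @sorted_unique S lS x y z x' y' z' hxy hyz h1' h2'
        (fun w => (hmem w).symm.trans (hmem' w))
      exact hc
    · intro hc
      exact ⟨x, y, z, hxy, hyz, hmem, hc⟩
  show decide _ = i
  cases i with
  | true => exact decide_eq_true (hiff.mpr rfl)
  | false =>
    apply decide_eq_false
    intro hcon
    exact absurd (hiff.mp hcon) (by simp)

end Pool.Agent.Lib.MP_dc3585_lc
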